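import Pool.Agent.Lib.PolyTime.Typed

/-!
# Polynomial-time equality tests, membership, and more list functions
-/

namespace Pool.Agent.PolyTime

open Function

/-- one step of the comparison of S-expressions -/
def eqStep (s : List (Sx × Sx) × Bool) : List (Sx × Sx) × Bool :=
  List.casesOn s.1 s (fun p t =>
    if p.1 = Sx.nil then (if p.2 = Sx.nil then (t, s.2) else ([], false))
    else (if p.2 = Sx.nil then ([], false) else
      ((p.1.hd, p.2.hd) :: (p.1.tl, p.2.tl) :: t, s.2)))

/-- sum of the sizes of the first components -/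
def eqPot (t : List (Sx × Sx)) : ℕ := (t.map (fun p => p.1.size)).sum

theorem eqStep_iterate (n : ℕ) : ∀ (t : List (Sx × Sx)) (b : Bool), eqPot t ≤ n →
    eqStep^[n] (t, b) = ([], b && t.all (fun p => decide (p.1 = p.2))) := by
  induction n with
  | zero =>
    intro t b h
    rcases t with _ | ⟨p, t⟩
    · simp
    · have := p.1.size_pos
      simp only [eqPot, List.map_cons, List.sum_cons] at h
      omega
  | succ n ih =>
    intro t b h
    rw [Function.iterate_succ_apply]
    rcases t with _ | ⟨⟨x, y⟩, t⟩
    · have : eqStep ([], b) = ([], b) := rfl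
      rw [this, ih _ _ (by simp [eqPot])]
    · simp only [eqPot, List.map_cons, List.sum_cons] at h
      rcases x with _ | ⟨x1, x2⟩ <;> rcases y with _ | ⟨y1, y2⟩
      · have : eqStep ((Sx.nil, Sx.nil) :: t, b) = (t, b) := by simp [eqStep]
        rw [this, ih _ _ (by simp only [eqPot, Sx.size] at *; omega)]
        simp
      · have : eqStep ((Sx.nil, Sx.cons y1 y2) :: t, b) = ([], false) := by simp [eqStep]
        rw [this, ih _ _ (by simp [eqPot])]
        simp
      · have : eqStep ((Sx.cons x1 x2, Sx.nil) :: t, b) = ([], false) := by simp [eqStep]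
        rw [this, ih _ _ (by simp [eqPot])]
        simp
      · have : eqStep ((Sx.cons x1 x2, Sx.cons y1 y2) :: t, b) =
            ((x1, y1) :: (x2, y2) :: t, b) := by simp [eqStep, Sx.hd, Sx.tl]
        rw [this, ih _ _ (by
          simp only [eqPot, Sx.size, List.map_cons, List.sum_cons] at *
          omega)]
        simp [Bool.and_assoc, Bool.decide_and]

namespace PTime

variable {α β γ δ σ : Type} [SCode α] [SCode β] [SCode γ] [SCode δ] [SCode σ]

theorem sx_isNil {f : α → Sx} (hf : PTime f) : PTime (fun a => decide (f a = Sx.nil)) :=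
  (sx_cond hf (PTime.const false) (PTime.const true)).of_eq fun a => by
    by_cases h : f a = Sx.nil <;> simp [h]

theorem sx_hd {f : α → Sx} (hf : PTime f) : PTime (fun a => (f a).hd) := by
  obtain ⟨F, hF, hF'⟩ := hf
  exact ⟨_, .comp (E := fun _ => True) .hd hF (fun _ _ => trivial), fun a => by
    simp only [hF', enc_sx]⟩

theorem sx_tl {f : α → Sx} (hf : PTime f) : PTime (fun a => (f a).tl) := by
  obtain ⟨F, hF, hF'⟩ := hf
  exact ⟨_, .comp (E := fun _ => True) .tl hF (fun _ _ => trivial), fun a => by
    simp only [hF', enc_sx]⟩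

theorem eqStep_ptime : PTime eqStep := by
  have p1 : PTime (fun q : (List (Sx × Sx) × Bool) × (Sx × Sx) × List (Sx × Sx) => q.2.1.1) :=
    PTime.fst.comp (PTime.fst.comp PTime.snd)
  have p2 : PTime (fun q : (List (Sx × Sx) × Bool) × (Sx × Sx) × List (Sx × Sx) => q.2.1.2) :=
    PTime.snd.comp (PTime.fst.comp PTime.snd)
  have t : PTime (fun q : (List (Sx × Sx) × Bool) × (Sx × Sx) × List (Sx × Sx) => q.2.2) :=
    PTime.snd.comp PTime.snd
  have b : PTime (fun q : (List (Sx × Sx) × Bool) × (Sx × Sx) × List (Sx × Sx) => q.1.2) :=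
    PTime.snd.comp PTime.fst
  refine list_casesOn (f := fun s : List (Sx × Sx) × Bool => s.1)
    (h := fun s p t => if p.1 = Sx.nil then (if p.2 = Sx.nil then (t, s.2) else ([], false))
    else (if p.2 = Sx.nil then ([], false) else
      ((p.1.hd, p.2.hd) :: (p.1.tl, p.2.tl) :: t, s.2))) PTime.fst PTime.id ?_
  refine ite (c := fun q : (List (Sx × Sx) × Bool) × (Sx × Sx) × List (Sx × Sx) =>
    q.2.1.1 = Sx.nil) (sx_isNil p1) ?_ ?_
  · exact ite (c := fun q : (List (Sx × Sx) × Bool) × (Sx × Sx) × List (Sx × Sx) =>
      q.2.1.2 = Sx.nil) (sx_isNil p2) (pair t b) (PTime.const _)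
  · exact ite (c := fun q : (List (Sx × Sx) × Bool) × (Sx × Sx) × List (Sx × Sx) =>
      q.2.1.2 = Sx.nil) (sx_isNil p2) (PTime.const _)
      (pair (cons (pair (sx_hd p1) (sx_hd p2)) (cons (pair (sx_tl p1) (sx_tl p2)) t)) b)

open Polynomial in
theorem sx_eq : PTime (fun p : Sx × Sx => decide (p.1 = p.2)) := by
  have h : PTime (fun p : Sx × Sx => eqStep^[sz p.1] ([p], true)) := by
    refine iterate (f := fun _ s => eqStep s) (PTime.size.comp PTime.fst)
      (pair (cons PTime.id (PTime.const [])) (PTime.const true))
      (eqStep_ptime.comp PTime.snd) 0 ?_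
    rintro - ⟨t, b⟩
    rw [eval_zero, Nat.add_zero]
    have hb : sz b ≤ 3 := sz_bool_le b
    have hb' : 1 ≤ sz b := sz_pos b
    rcases t with _ | ⟨⟨x, y⟩, t⟩
    · exact le_rfl
    · have h1 : ∀ x : Sx, sz x = x.size := fun _ => rfl
      have ht := sz_pos t
      rcases x with _ | ⟨x1, x2⟩ <;> rcases y with _ | ⟨y1, y2⟩
      · have : eqStep ((Sx.nil, Sx.nil) :: t, b) = (t, b) := by simp [eqStep]
        rw [this]
        simp only [sz_pair, sz_cons]; omega
      · have : eqStep ((Sx.nil, Sx.cons y1 y2) :: t, b) = ([], false) := by simp [eqStep]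
        rw [this]
        simp only [sz_pair, sz_cons, sz_nil, sz_false]; omega
      · have : eqStep ((Sx.cons x1 x2, Sx.nil) :: t, b) = ([], false) := by simp [eqStep]
        rw [this]
        simp only [sz_pair, sz_cons, sz_nil, sz_false]; omega
      · have : eqStep ((Sx.cons x1 x2, Sx.cons y1 y2) :: t, b) =
            ((x1, y1) :: (x2, y2) :: t, b) := by simp [eqStep, Sx.hd, Sx.tl]
        rw [this]
        simp only [sz_pair, sz_cons, h1, Sx.size]; omega
  refine (PTime.snd.comp h).of_eq fun p => ?_
  rw [eqStep_iterate _ _ _ (by simp [eqPot]; exact le_rfl)]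
  simp

/-- equality is decidable in polynomial time -/
theorem eq [DecidableEq β] {f g : α → β} (hf : PTime f) (hg : PTime g) :
    PTime (fun a => decide (f a = g a)) :=
  (sx_eq.comp (pair (encode.comp hf) (encode.comp hg))).of_eq fun a => by
    congr 1
    exact propext ⟨fun h => SCode.inj h, fun h => by rw [h]⟩

theorem mem [DecidableEq β] {f : α → β} {l : α → List β} (hf : PTime f) (hl : PTime l) :
    PTime (fun a => decide (f a ∈ l a)) :=
  (any (p := fun a b => decide (f a = b)) hl (eq (hf.comp PTime.fst) PTime.snd)).of_eq fun a => by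
    induction l a with
    | nil => simp
    | cons b l ih =>
      rw [List.any_cons, ih]
      by_cases h : f a = b <;> simp [h]

/-- product of two lists -/
theorem product {l : α → List β} {m : α → List γ} (hl : PTime l) (hm : PTime m) :
    PTime (fun a => (l a).product (m a)) :=
  (flatMap (f := fun a b => (m a).map (fun c => (b, c))) hl
    (map (f := fun (p : α × β) c => (p.2, c)) (hm.comp PTime.fst) (pair (PTime.snd.comp PTime.fst) PTime.snd))).of_eq
    fun _ => rfl

/-- search for the first element with a property -/
theorem find? {l : α → List β} {p : α → β → Bool} (hl : PTime l)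
    (hp : PTime (fun q : α × β => p q.1 q.2)) : PTime (fun a => (l a).find? (p a)) :=
  (head? (filter hl hp)).of_eq fun a => by rw [List.head?_filter]

/-- association lists -/
theorem lookup [DecidableEq β] {f : α → β} {l : α → List (β × γ)} (hf : PTime f) (hl : PTime l) :
    PTime (fun a => (l a).lookup (f a)) := by
  have h := find? (p := fun a (q : β × γ) => decide (f a = q.1)) hl
    (eq (hf.comp PTime.fst) (PTime.fst.comp PTime.snd))
  refine (option_casesOn (f := fun a => (l a).find? (fun q : β × γ => decide (f a = q.1)))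
    (g := fun _ => (none : Option γ)) (h := fun _ q => Option.some q.2) h (PTime.const none)
    (some (PTime.snd.comp PTime.snd))).of_eq fun a => ?_
  induction l a with
  | nil => rfl
  | cons b l ih =>
    rcases b with ⟨b, c⟩
    by_cases h : f a = b
    · simp [h, List.lookup_cons]
    · have h' : (f a == b) = false := by simpa using h
      simp only [List.find?_cons, h, decide_false, List.lookup_cons, h'] at ih ⊢
      exact ih

/-- the function `fun a => (l a).zipIdx.map (f a)`: mapping with the index -/
theorem zipIdx {l : α → List β} (hl : PTime l) : PTime (fun a => (l a).zipIdx) := by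
  have h : PTime (fun a => (List.range (l a).length).flatMap
      (fun i => (Option.casesOn ((l a)[i]?) [] (fun b => [(b, i)]) : List (β × ℕ)))) :=
    flatMap (f := fun a i => (Option.casesOn ((l a)[i]?) [] (fun b => [(b, i)]) : List (β × ℕ)))
      (range (length hl))
      (option_casesOn (f := fun q : α × ℕ => (l q.1)[q.2]?)
        (h := fun q b => [(b, q.2)]) (getElem? PTime.snd (hl.comp PTime.fst)) (PTime.const [])
        (cons (pair PTime.snd (PTime.snd.comp PTime.fst)) (PTime.const [])))
  refine h.of_eq fun a => ?_
  apply List.ext_getElem?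
  intro i
  have key : ∀ n, n ≤ (l a).length → (List.range n).flatMap
      (fun i => (Option.casesOn ((l a)[i]?) [] (fun b => [(b, i)]) : List (β × ℕ))) =
      ((l a).take n).zipIdx := by
    intro n
    induction n with
    | zero => intro _; simp
    | succ n ih =>
      intro hn
      rw [List.range_succ, List.flatMap_append, ih (by omega)]
      have hlt : n < (l a).length := by omega
      rw [List.take_add_one, List.zipIdx_append]
      simp [hlt, Nat.min_eq_left (Nat.le_of_lt hlt)]
  rw [key _ le_rfl, List.take_length]

end PTime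

end Pool.Agent.PolyTime
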