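import Pool.Agent.Lib.PolyTime.Eq

/-!
# Functions computable in time polynomial in a given budget

`BTime T f` says that `f : α → β` is computed on codes by a stack program whose running time on
`a` is at most a polynomial in `T a`.  With `T a = sz a` this is polynomial time; with
`T a = 2 ^ κ a * sz a` this is time `2 ^ O(κ) * n ^ O(1)`.
-/

namespace Pool.Agent.PolyTime

open Function Polynomial

/-- `f` is computed by a stack program in time polynomial in the budget `T` -/
def BTime {α β : Type} [SCode α] [SCode β] (T : α → ℕ) (f : α → β) : Prop :=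
  ∃ (c : Cmd St) (P : Polynomial ℕ), ∀ (a : α) (r s : List Bool),
    RunLe c (stk ((enc a).bits ++ r) [] [] s) (stk ((enc (f a)).bits ++ r) [] [] s)
      (P.eval (T a))

/-- raw version: commands computing functions on S-expressions within budgets -/
def BFn (D : Sx → ℕ → Prop) (f : Sx → Sx) : Prop :=
  ∃ (c : Cmd St) (P : Polynomial ℕ), ∀ (x : Sx) (b : ℕ) (r s : List Bool), D x b →
    RunLe c (stk (x.bits ++ r) [] [] s) (stk ((f x).bits ++ r) [] [] s) (P.eval b)

theorem BFn.of_pfn {D : Sx → Prop} {f : Sx → Sx} (h : PFn D f) {E : Sx → ℕ → Prop}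
    (Q : Polynomial ℕ) (hE : ∀ x b, E x b → D x ∧ x.size ≤ Q.eval b) : BFn E f := by
  obtain ⟨c, P, hc⟩ := h.exists_cmd
  refine ⟨c, P.comp Q, fun x b r s hx => ?_⟩
  rw [eval_comp]
  exact (hc x r s (hE x b hx).1).mono (eval_mono P (hE x b hx).2)

theorem BFn.comp {D E : Sx → ℕ → Prop} {f g : Sx → Sx} (hf : BFn E f) (hg : BFn D g)
    (Q : Polynomial ℕ) (h : ∀ x b, D x b → E (g x) (Q.eval b)) : BFn D (fun x => f (g x)) := by
  obtain ⟨cf, P, hf⟩ := hf
  obtain ⟨cg, R, hg⟩ := hg
  refine ⟨.seq cg cf, R + P.comp Q, fun x b r s hx => ?_⟩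
  refine (RunLe.seq (hg x b r s hx) (hf (g x) _ r s (h x b hx))).mono ?_
  simp [eval_comp]

/-- iteration within a budget -/
theorem BFn.iter {D E : Sx → ℕ → Prop} {f : Sx → Sx} (hf : BFn E f) (Q : Polynomial ℕ)
    (hD : ∀ x b, D x b → x.size ≤ Q.eval b ∧ ∀ i, i ≤ (Sx.hd x).len →
      E (f^[i] (Sx.tl x)) (Q.eval b)) :
    BFn D (fun x => f^[(Sx.hd x).len] (Sx.tl x)) := by
  obtain ⟨cf, P, hf⟩ := hf
  have loop : ∀ (n y : Sx) (r s : List Bool) (B : ℕ),
      (∀ i, i ≤ n.len → E (f^[i] y) B) →
      RunLe (.loopT .D (.seq (Cmd.dropOne .D) cf)) (stk (y.bits ++ r) [] [] (n.bits ++ s))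
        (stk ((f^[n.len] y).bits ++ r) [] [] s) (5 * n.size + n.len * (P.eval B + 3) + 1) := by
    intro n
    induction n with
    | nil =>
      intro y r s B _
      simp only [Sx.bits, List.singleton_append, Sx.len, Function.iterate_zero, id_eq]
      have h := RunLe.loopT_false (c := .seq (Cmd.dropOne .D) cf)
        (stk_D (y.bits ++ r) [] [] (false :: s))
      rw [update_D] at h
      exact h.mono (by omega)
    | cons a b _ ihb =>
      intro y r s B hB
      have hy : E y B := hB 0 (Nat.zero_le _)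
      have ih := ihb (f y) r s B (fun i hi => by
        have := hB (i + 1) (by simp only [Sx.len]; omega)
        rwa [Function.iterate_succ_apply] at this)
      simp only [Sx.bits, List.cons_append, List.append_assoc, Sx.len,
        Function.iterate_succ_apply]
      refine (RunLe.loopT_true (n := (5 * a.size + 2) + P.eval B) (stk_D _ _ _ _) ?_
        ih).mono ?_
      · rw [update_D]
        exact RunLe.seq (run_dropOne_D a _ [] _) (hf y B r _ hy)
      · simp only [Sx.size]
        nlinarith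
  refine ⟨.pop .A .skip (.push .A false)
    (.seq Cmd.save (.loopT .D (.seq (Cmd.dropOne .D) cf))),
    C 12 * Q + Q * (P.comp Q + C 3) + C 10, fun x b r s hx => ?_⟩
  have hsz := (hD x b hx).1
  have hI := (hD x b hx).2
  cases x with
  | nil =>
    simp only [Sx.bits, List.singleton_append, Sx.tl, Sx.hd, Sx.len, Function.iterate_zero,
      id_eq]
    refine (RunLe.pop_false (n := 1) (stk_A _ _ _ _) ?_).mono
      (by simp only [eval_add, eval_C]; omega)
    rw [update_A]
    simpa using RunLe.push (stk r [] [] s) .A false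
  | cons n y =>
    have h1 := loop n y r s (Q.eval b) hI
    simp only [Sx.bits, List.cons_append, List.append_assoc, Sx.tl, Sx.hd]
    refine (RunLe.pop_true (stk_A _ _ _ _) (n := (7 * n.size + 3) +
      (5 * n.size + n.len * (P.eval (Q.eval b) + 3) + 1)) ?_).mono ?_
    · rw [update_A]
      exact RunLe.seq (run_save n (y.bits ++ r) s) h1
    · have hn := n.len_le_size
      simp only [eval_add, eval_mul, eval_C, eval_comp]
      simp only [Sx.size] at hsz
      set E := eval (eval b Q) P
      have : n.len * (E + 3) ≤ (eval b Q) * (E + 3) :=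
        Nat.mul_le_mul_right _ (by omega)
      omega

namespace BTime

variable {α β γ : Type} [SCode α] [SCode β] [SCode γ]

/-- polynomial-time functions are computable within every budget at least the size -/
theorem of_ptime {T : α → ℕ} {f : α → β} (hf : PTime f) (Q : Polynomial ℕ)
    (hT : ∀ a, sz a ≤ Q.eval (T a)) : BTime T f := by
  obtain ⟨F, hF, hF'⟩ := hf
  obtain ⟨c, P, hc⟩ := hF.exists_cmd
  refine ⟨c, P.comp Q, fun a r s => ?_⟩
  have := hc (enc a) r s (dom_enc a)
  rw [hF'] at this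
  refine this.mono ?_
  rw [eval_comp]
  exact eval_mono P (hT a)

/-- composition with a polynomial-time function -/
theorem comp_ptime {T : α → ℕ} {f : β → γ} {g : α → β} (hf : PTime f) (hg : BTime T g)
    (Q : Polynomial ℕ) (hT : ∀ a, sz (g a) ≤ Q.eval (T a)) : BTime T (fun a => f (g a)) := by
  obtain ⟨F, hF, hF'⟩ := hf
  obtain ⟨cf, P, hcf⟩ := hF.exists_cmd
  obtain ⟨cg, R, hcg⟩ := hg
  refine ⟨.seq cg cf, R + P.comp Q, fun a r s => ?_⟩
  have := hcf (enc (g a)) r s (dom_enc _)
  rw [hF'] at this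
  refine (RunLe.seq (hcg a r s) this).mono ?_
  simp only [eval_add, eval_comp]
  exact Nat.add_le_add_left (eval_mono P (hT a)) _

/-- the function `a ↦ (2 ^ κ a, a)` (unary) is computable within the budget `2 ^ κ a * sz a` -/
theorem two_pow {κ : α → ℕ} (hκ : PTime κ) :
    BTime (fun a => 2 ^ κ a * sz a) (fun a => (2 ^ κ a, a)) := by
  obtain ⟨K, hK, hK'⟩ := hκ
  -- doubling of the first component
  have hdbl : PTime (fun p : ℕ × α => (p.1 + p.1, p.2)) :=
    (PTime.add PTime.fst PTime.fst).pair PTime.snd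
  obtain ⟨G, hG, hG'⟩ := hdbl
  have hGi : ∀ (a : α) (m i : ℕ), G^[i] (enc (m, a)) = enc (2 ^ i * m, a) := by
    intro a m i
    induction i generalizing m with
    | zero => simp
    | succ i ih =>
      rw [Function.iterate_succ_apply, hG', ih]
      congr 2
      ring
  have hG2 : BFn (fun x b => ∃ (m : ℕ) (a : α), x = enc (m, a) ∧ x.size ≤ b) G := by
    refine BFn.of_pfn hG X ?_
    rintro _ b ⟨m, a, rfl, h⟩
    exact ⟨dom_enc _, by simpa using h⟩
  -- the initial state
  have hI : PFn (Dom α) (fun x => Sx.cons (K x) (Sx.cons (Sx.cons .nil .nil) x)) :=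
    .cons hK (.cons (PFn.const _) .id)
  have hI2 : BFn (fun x b => ∃ a : α, x = enc a ∧ 2 ^ κ a * sz a ≤ b)
      (fun x => Sx.cons (K x) (Sx.cons (Sx.cons .nil .nil) x)) := by
    refine BFn.of_pfn hI X ?_
    rintro _ b ⟨a, rfl, h⟩
    refine ⟨dom_enc _, ?_⟩
    have h1 : 1 ≤ 2 ^ κ a := Nat.one_le_two_pow
    have h2 : sz a ≤ 2 ^ κ a * sz a := Nat.le_mul_of_pos_left _ h1
    simp only [eval_X]
    exact h2.trans h
  have hit := BFn.iter (D := fun x b => ∃ a : α, x = Sx.cons (enc (κ a)) (enc (1, a)) ∧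
    2 ^ κ a * sz a ≤ b) hG2 (C 20 * X) (by
      rintro _ b ⟨a, rfl, h⟩
      have h1 : κ a < 2 ^ κ a := Nat.lt_two_pow_self
      have h2 : 1 ≤ sz a := sz_pos a
      have h3 : 2 ^ κ a ≤ 2 ^ κ a * sz a := Nat.le_mul_of_pos_right _ h2
      have h4 : sz a ≤ 2 ^ κ a * sz a := Nat.le_mul_of_pos_left _ (by omega)
      refine ⟨?_, ?_⟩
      · simp only [Sx.size, eval_mul, eval_C, eval_X]
        have e1 : (enc (κ a)).size = 2 * κ a + 1 := sz_nat _
        have e2 : (enc ((1 : ℕ), a)).size = 3 + sz a + 1 := rfl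
        rw [e1, e2]
        omega
      · intro i hi
        simp only [Sx.hd, len_enc_nat] at hi
        simp only [Sx.tl]
        rw [hGi]
        refine ⟨_, _, rfl, ?_⟩
        have e2 : (enc (2 ^ i * 1, a)).size = (2 * (2 ^ i * 1) + 1) + sz a + 1 :=
          (sz_pair (2 ^ i * 1) a).trans (by rw [sz_nat])
        rw [e2]
        have : 2 ^ i ≤ 2 ^ κ a := Nat.pow_le_pow_right (by norm_num) hi
        simp only [eval_mul, eval_C, eval_X]
        omega)
  have hfin := BFn.comp hit hI2 X (by
    rintro _ b ⟨a, rfl, h⟩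
    refine ⟨a, ?_, by simpa using h⟩
    rw [hK']
    rfl)
  obtain ⟨c, P, hc⟩ := hfin
  refine ⟨c, P, fun a r s => ?_⟩
  have h := hc (enc a) _ r s ⟨a, rfl, le_rfl⟩
  simp only [hK', Sx.hd, Sx.tl, len_enc_nat] at h
  have e : G^[κ a] (Sx.cons (Sx.cons .nil .nil) (enc a)) = enc (2 ^ κ a, a) := by
    have := hGi a 1 (κ a)
    rw [mul_one] at this
    exact this
  rw [e] at h
  exact h

/-- functions computable within a budget are computed by Mathlib machines -/
theorem exists_tm {T : α → ℕ} {f : α → β} (h : BTime T f) :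
    ∃ (tm : Turing.FinTM2) (e₀ : tm.Γ tm.k₀ ≃ Bool) (e₁ : tm.Γ tm.k₁ ≃ Bool)
      (P : Polynomial ℕ), ∀ a : α, Nonempty (Turing.TM2OutputsInTime tm
        ((enc a).bits.map e₀.symm) (some ((enc (f a)).bits.map e₁.symm)) (P.eval (T a))) := by
  obtain ⟨c, P, hP⟩ := h
  refine ⟨(Flow.compile c).toTM .A .A, Equiv.refl _, Equiv.refl _, P + 1, fun a => ?_⟩
  obtain ⟨t, ht, hrun⟩ := hP a [] []
  simp only [List.append_nil] at hrun
  rw [← update_eq_stk, ← update_eq_stk] at hrun
  have h := Cmd.outputs c .A .A hrun ((P + 1).eval (T a)) (by simp; omega)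
  have e : ∀ l : List Bool, List.map (Equiv.refl Bool).symm l = l := fun l => List.map_id l
  exact (congrArg₂ (fun u v => Nonempty (Turing.TM2OutputsInTime
    ((Flow.compile c).toTM .A .A) u (some v) ((P + 1).eval (T a)))) (e (enc a).bits)
    (e (enc (f a)).bits)).mpr h

end BTime

end Pool.Agent.PolyTime
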