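import Pool.Agent.Lib.PolyTime.Stack

/-!
# Polynomial-time functions on S-expressions

`Sx` is the type of S-expressions (binary trees), coded as bit strings by the self-delimiting code
`nil ↦ 0`, `cons a b ↦ 1 a b`.  `PFn f` is an inductively defined class of functions
`Sx → Sx`: it contains the basic functions and is closed under composition, pairing,
conditionals and iteration with polynomially bounded intermediate results.
`PFn.exists_cmd` shows that every such function is computed by a stack program in polynomial
time.
-/

namespace Pool.Agent.PolyTime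

open Function

/-! ### S-expressions -/

/-- S-expressions -/
inductive Sx : Type
  | nil : Sx
  | cons (a b : Sx) : Sx
  deriving DecidableEq

namespace Sx

/-- the self-delimiting bit code: `nil ↦ 0`, `cons a b ↦ 1 a b` -/
def bits : Sx → List Bool
  | nil => [false]
  | cons a b => true :: (a.bits ++ b.bits)

/-- size, the length of the bit code -/
def size : Sx → ℕ
  | nil => 1
  | cons a b => a.size + b.size + 1

@[simp] theorem length_bits (x : Sx) : x.bits.length = x.size := by
  induction x with
  | nil => rfl
  | cons a b iha ihb => simp [bits, size, iha, ihb]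

theorem size_pos (x : Sx) : 0 < x.size := by
  cases x <;> simp [size]

/-- first component; `hd nil = nil` -/
def hd : Sx → Sx
  | nil => nil
  | cons a _ => a

/-- second component; `tl nil = nil` -/
def tl : Sx → Sx
  | nil => nil
  | cons _ b => b

/-- length of an S-expression seen as a list -/
def len : Sx → ℕ
  | nil => 0
  | cons _ b => b.len + 1

/-- unary numerals -/
def ofNat : ℕ → Sx
  | 0 => nil
  | n + 1 => cons nil (ofNat n)

@[simp] theorem len_ofNat (n : ℕ) : (ofNat n).len = n := by
  induction n with
  | zero => rfl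
  | succ n ih => simp [ofNat, len, ih]

@[simp] theorem size_ofNat (n : ℕ) : (ofNat n).size = 2 * n + 1 := by
  induction n with
  | zero => rfl
  | succ n ih => simp only [ofNat, size, ih]; omega

theorem size_hd_le (x : Sx) : x.hd.size ≤ x.size := by
  cases x with
  | nil => exact le_rfl
  | cons a b => simp only [hd, size]; omega

theorem size_tl_le (x : Sx) : x.tl.size ≤ x.size := by
  cases x with
  | nil => exact le_rfl
  | cons a b => simp only [tl, size]; omega

theorem len_le_size (x : Sx) : x.len ≤ x.size := by
  induction x with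
  | nil => simp [len]
  | cons a b _ ih => simp only [len, size]; omega

end Sx

/-! ### Runs with an upper bound for the time -/

/-- `c` leads from `S` to `S'` in at most `n` steps -/
def RunLe {K : Type} [DecidableEq K] (c : Cmd K) (S S' : K → List Bool) (n : ℕ) : Prop :=
  ∃ t, t ≤ n ∧ Run c S S' t

section rules

variable {K : Type} [DecidableEq K]

theorem RunLe.mono {c : Cmd K} {S S' : K → List Bool} {n n' : ℕ} (h : RunLe c S S' n)
    (hn : n ≤ n') : RunLe c S S' n' := by
  obtain ⟨t, ht, h⟩ := h
  exact ⟨t, ht.trans hn, h⟩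

theorem RunLe.skip (S : K → List Bool) : RunLe .skip S S 0 := ⟨0, le_rfl, .skip S⟩

theorem RunLe.push (S : K → List Bool) (k : K) (b : Bool) :
    RunLe (.push k b) S (update S k (b :: S k)) 1 := ⟨1, le_rfl, .push S k b⟩

theorem RunLe.seq {c₁ c₂ : Cmd K} {S S' S'' : K → List Bool} {n n' : ℕ}
    (h₁ : RunLe c₁ S S' n) (h₂ : RunLe c₂ S' S'' n') : RunLe (.seq c₁ c₂) S S'' (n + n') := by
  obtain ⟨t, ht, h₁⟩ := h₁
  obtain ⟨t', ht', h₂⟩ := h₂
  exact ⟨t + t', by omega, .seq h₁ h₂⟩

theorem RunLe.pop_false {k : K} {cn cf ct : Cmd K} {S S' : K → List Bool} {n : ℕ} {l}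
    (hk : S k = false :: l) (h : RunLe cf (update S k l) S' n) :
    RunLe (.pop k cn cf ct) S S' (n + 1) := by
  obtain ⟨t, ht, h⟩ := h
  exact ⟨t + 1, by omega, .pop_false hk h⟩

theorem RunLe.pop_true {k : K} {cn cf ct : Cmd K} {S S' : K → List Bool} {n : ℕ} {l}
    (hk : S k = true :: l) (h : RunLe ct (update S k l) S' n) :
    RunLe (.pop k cn cf ct) S S' (n + 1) := by
  obtain ⟨t, ht, h⟩ := h
  exact ⟨t + 1, by omega, .pop_true hk h⟩

theorem RunLe.loopB_none {k : K} {cf ct : Cmd K} {S : K → List Bool} (hk : S k = []) :
    RunLe (.loopB k cf ct) S S 1 := ⟨1, le_rfl, .loopB_none hk⟩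

theorem RunLe.loopB_false {k : K} {cf ct : Cmd K} {S S' S'' : K → List Bool} {n n' : ℕ} {l}
    (hk : S k = false :: l) (h : RunLe cf (update S k l) S' n)
    (h' : RunLe (.loopB k cf ct) S' S'' n') : RunLe (.loopB k cf ct) S S'' (n + n' + 1) := by
  obtain ⟨t, ht, h⟩ := h
  obtain ⟨t', ht', h'⟩ := h'
  exact ⟨t + t' + 1, by omega, .loopB_false hk h h'⟩

theorem RunLe.loopB_true {k : K} {cf ct : Cmd K} {S S' S'' : K → List Bool} {n n' : ℕ} {l}
    (hk : S k = true :: l) (h : RunLe ct (update S k l) S' n)
    (h' : RunLe (.loopB k cf ct) S' S'' n') : RunLe (.loopB k cf ct) S S'' (n + n' + 1) := by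
  obtain ⟨t, ht, h⟩ := h
  obtain ⟨t', ht', h'⟩ := h'
  exact ⟨t + t' + 1, by omega, .loopB_true hk h h'⟩

theorem RunLe.loopT_none {k : K} {c : Cmd K} {S : K → List Bool} (hk : S k = []) :
    RunLe (.loopT k c) S S 1 := ⟨1, le_rfl, .loopT_none hk⟩

theorem RunLe.loopT_false {k : K} {c : Cmd K} {S : K → List Bool} {l} (hk : S k = false :: l) :
    RunLe (.loopT k c) S (update S k l) 1 := ⟨1, le_rfl, .loopT_false hk⟩

theorem RunLe.loopT_true {k : K} {c : Cmd K} {S S' S'' : K → List Bool} {n n' : ℕ} {l}
    (hk : S k = true :: l) (h : RunLe c (update S k l) S' n)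
    (h' : RunLe (.loopT k c) S' S'' n') : RunLe (.loopT k c) S S'' (n + n' + 1) := by
  obtain ⟨t, ht, h⟩ := h
  obtain ⟨t', ht', h'⟩ := h'
  exact ⟨t + t' + 1, by omega, .loopT_true hk h h'⟩

end rules

/-! ### The four stacks -/

/-- the four stacks: `A` holds the argument and the result, `D` holds saved values,
`B` and `C` are auxiliary -/
inductive St : Type
  | A | B | C | D
  deriving DecidableEq

instance : Fintype St := ⟨⟨{St.A, St.B, St.C, St.D}, by decide⟩, fun x => by cases x <;> decide⟩

/-- the four stacks as a function -/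
def stk (a b c d : List Bool) : St → List Bool
  | .A => a
  | .B => b
  | .C => c
  | .D => d

@[simp] theorem stk_A (a b c d) : stk a b c d .A = a := rfl
@[simp] theorem stk_B (a b c d) : stk a b c d .B = b := rfl
@[simp] theorem stk_C (a b c d) : stk a b c d .C = c := rfl
@[simp] theorem stk_D (a b c d) : stk a b c d .D = d := rfl

@[simp] theorem update_A (a b c d a') : update (stk a b c d) .A a' = stk a' b c d := by
  funext k; cases k <;> simp
@[simp] theorem update_B (a b c d b') : update (stk a b c d) .B b' = stk a b' c d := by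
  funext k; cases k <;> simp
@[simp] theorem update_C (a b c d c') : update (stk a b c d) .C c' = stk a b c' d := by
  funext k; cases k <;> simp
@[simp] theorem update_D (a b c d d') : update (stk a b c d) .D d' = stk a b c d' := by
  funext k; cases k <;> simp

theorem update_eq_stk (x : List Bool) : update (fun _ => []) St.A x = stk x [] [] [] := by
  funext k; cases k <;> simp

/-! ### Basic programs -/

namespace Cmd

/-- loop of `moveOne` -/
def moveLoop (src dst : St) : Cmd St :=
  .loopT .C (.pop src .skip (.push dst false)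
    (.seq (.push dst true) (.seq (.push .C true) (.push .C true))))

/-- move one S-expression from stack `src` to stack `dst`, reversed; uses the counter `C` -/
def moveOne (src dst : St) : Cmd St := .seq (.push .C true) (moveLoop src dst)

/-- loop of `dropOne` -/
def dropLoop (src : St) : Cmd St :=
  .loopT .C (.pop src .skip .skip (.seq (.push .C true) (.push .C true)))

/-- remove one S-expression from stack `src` -/
def dropOne (src : St) : Cmd St := .seq (.push .C true) (dropLoop src)

/-- move everything from `B` to `dst` -/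
def back (dst : St) : Cmd St := .loopB .B (.push dst false) (.push dst true)

/-- move everything from `B` to `A` and to `D` -/
def backBoth : Cmd St :=
  .loopB .B (.seq (.push .A false) (.push .D false)) (.seq (.push .A true) (.push .D true))

end Cmd

open Cmd

theorem moveLoop_AB (x : Sx) : ∀ (r b c d : List Bool) (S : St → List Bool) (n : ℕ),
    RunLe (moveLoop .A .B) (stk r (x.bits.reverse ++ b) c d) S n →
    RunLe (moveLoop .A .B) (stk (x.bits ++ r) b (true :: c) d) S (n + 5 * x.size) := by
  induction x with
  | nil =>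
    intro r b c d S n h
    simp only [Sx.bits, List.reverse_singleton, List.singleton_append] at h ⊢
    refine (RunLe.loopT_true (stk_C _ _ _ _) ?_ h).mono
      (show 2 + n + 1 ≤ _ by simp only [Sx.size]; omega)
    rw [update_C]
    refine RunLe.pop_false (stk_A _ _ _ _) ?_
    rw [update_A]
    simpa using RunLe.push (stk r b c d) .B false
  | cons x y ihx ihy =>
    intro r b c d S n h
    simp only [Sx.bits, List.reverse_cons, List.reverse_append, List.append_assoc,
      List.singleton_append] at h
    have h1 := ihy _ _ _ _ _ _ h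
    have h2 := ihx _ _ _ _ _ _ h1
    simp only [Sx.bits, List.cons_append, List.append_assoc]
    refine (RunLe.loopT_true (stk_C _ _ _ _) ?_ h2).mono
      (show 4 + _ + 1 ≤ _ by simp only [Sx.size]; omega)
    rw [update_C]
    refine RunLe.pop_true (stk_A _ _ _ _) ?_
    rw [update_A]
    refine RunLe.seq (n := 1) (n' := 2) (RunLe.push _ _ _) ?_
    refine RunLe.seq (n := 1) (n' := 1) (RunLe.push _ _ _) ?_
    simpa using RunLe.push (stk (x.bits ++ (y.bits ++ r)) (true :: b) (true :: c) d) .C true

theorem moveLoop_DB (x : Sx) : ∀ (a b c r : List Bool) (S : St → List Bool) (n : ℕ),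
    RunLe (moveLoop .D .B) (stk a (x.bits.reverse ++ b) c r) S n →
    RunLe (moveLoop .D .B) (stk a b (true :: c) (x.bits ++ r)) S (n + 5 * x.size) := by
  induction x with
  | nil =>
    intro a b c r S n h
    simp only [Sx.bits, List.reverse_singleton, List.singleton_append] at h ⊢
    refine (RunLe.loopT_true (stk_C _ _ _ _) ?_ h).mono
      (show 2 + n + 1 ≤ _ by simp only [Sx.size]; omega)
    rw [update_C]
    refine RunLe.pop_false (stk_D _ _ _ _) ?_
    rw [update_D]
    simpa using RunLe.push (stk a b c r) .B false
  | cons x y ihx ihy =>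
    intro a b c r S n h
    simp only [Sx.bits, List.reverse_cons, List.reverse_append, List.append_assoc,
      List.singleton_append] at h
    have h1 := ihy _ _ _ _ _ _ h
    have h2 := ihx _ _ _ _ _ _ h1
    simp only [Sx.bits, List.cons_append, List.append_assoc]
    refine (RunLe.loopT_true (stk_C _ _ _ _) ?_ h2).mono
      (show 4 + _ + 1 ≤ _ by simp only [Sx.size]; omega)
    rw [update_C]
    refine RunLe.pop_true (stk_D _ _ _ _) ?_
    rw [update_D]
    refine RunLe.seq (n := 1) (n' := 2) (RunLe.push _ _ _) ?_
    refine RunLe.seq (n := 1) (n' := 1) (RunLe.push _ _ _) ?_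
    simpa using RunLe.push (stk a (true :: b) (true :: c) (x.bits ++ (y.bits ++ r))) .C true

theorem dropLoop_A (x : Sx) : ∀ (r b c d : List Bool) (S : St → List Bool) (n : ℕ),
    RunLe (dropLoop .A) (stk r b c d) S n →
    RunLe (dropLoop .A) (stk (x.bits ++ r) b (true :: c) d) S (n + 5 * x.size) := by
  induction x with
  | nil =>
    intro r b c d S n h
    simp only [Sx.bits, List.singleton_append] at h ⊢
    refine (RunLe.loopT_true (stk_C _ _ _ _) ?_ h).mono
      (show 1 + n + 1 ≤ _ by simp only [Sx.size]; omega)
    rw [update_C]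
    refine RunLe.pop_false (stk_A _ _ _ _) ?_
    rw [update_A]
    exact RunLe.skip _
  | cons x y ihx ihy =>
    intro r b c d S n h
    have h1 := ihy _ _ _ _ _ _ h
    have h2 := ihx _ _ _ _ _ _ h1
    simp only [Sx.bits, List.cons_append, List.append_assoc]
    refine (RunLe.loopT_true (stk_C _ _ _ _) ?_ h2).mono
      (show 3 + _ + 1 ≤ _ by simp only [Sx.size]; omega)
    rw [update_C]
    refine RunLe.pop_true (stk_A _ _ _ _) ?_
    rw [update_A]
    refine RunLe.seq (n := 1) (n' := 1) (RunLe.push _ _ _) ?_
    simpa using RunLe.push (stk (x.bits ++ (y.bits ++ r)) b (true :: c) d) .C true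

theorem dropLoop_D (x : Sx) : ∀ (a b c r : List Bool) (S : St → List Bool) (n : ℕ),
    RunLe (dropLoop .D) (stk a b c r) S n →
    RunLe (dropLoop .D) (stk a b (true :: c) (x.bits ++ r)) S (n + 5 * x.size) := by
  induction x with
  | nil =>
    intro a b c r S n h
    simp only [Sx.bits, List.singleton_append] at h ⊢
    refine (RunLe.loopT_true (stk_C _ _ _ _) ?_ h).mono
      (show 1 + n + 1 ≤ _ by simp only [Sx.size]; omega)
    rw [update_C]
    refine RunLe.pop_false (stk_D _ _ _ _) ?_
    rw [update_D]
    exact RunLe.skip _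
  | cons x y ihx ihy =>
    intro a b c r S n h
    have h1 := ihy _ _ _ _ _ _ h
    have h2 := ihx _ _ _ _ _ _ h1
    simp only [Sx.bits, List.cons_append, List.append_assoc]
    refine (RunLe.loopT_true (stk_C _ _ _ _) ?_ h2).mono
      (show 3 + _ + 1 ≤ _ by simp only [Sx.size]; omega)
    rw [update_C]
    refine RunLe.pop_true (stk_D _ _ _ _) ?_
    rw [update_D]
    refine RunLe.seq (n := 1) (n' := 1) (RunLe.push _ _ _) ?_
    simpa using RunLe.push (stk a b (true :: c) (x.bits ++ (y.bits ++ r))) .C true

theorem run_moveOne_A (x : Sx) (r d : List Bool) :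
    RunLe (moveOne .A .B) (stk (x.bits ++ r) [] [] d) (stk r x.bits.reverse [] d)
      (5 * x.size + 2) := by
  have h0 : RunLe (moveLoop .A .B) (stk r (x.bits.reverse ++ []) [] d)
      (stk r x.bits.reverse [] d) 1 := by
    rw [List.append_nil]
    exact RunLe.loopT_none rfl
  have h1 := moveLoop_AB x _ _ _ _ _ _ h0
  refine (RunLe.seq (n := 1) (n' := 1 + 5 * x.size) (RunLe.push _ _ _) ?_).mono (by omega)
  simpa using h1

theorem run_moveOne_D (x : Sx) (a s : List Bool) :
    RunLe (moveOne .D .B) (stk a [] [] (x.bits ++ s)) (stk a x.bits.reverse [] s)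
      (5 * x.size + 2) := by
  have h0 : RunLe (moveLoop .D .B) (stk a (x.bits.reverse ++ []) [] s)
      (stk a x.bits.reverse [] s) 1 := by
    rw [List.append_nil]
    exact RunLe.loopT_none rfl
  have h1 := moveLoop_DB x _ _ _ _ _ _ h0
  refine (RunLe.seq (n := 1) (n' := 1 + 5 * x.size) (RunLe.push _ _ _) ?_).mono (by omega)
  simpa using h1

theorem run_dropOne_A (x : Sx) (r b d : List Bool) :
    RunLe (dropOne .A) (stk (x.bits ++ r) b [] d) (stk r b [] d) (5 * x.size + 2) := by
  have h1 := dropLoop_A x r b [] d _ 1 (RunLe.loopT_none rfl)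
  refine (RunLe.seq (n := 1) (n' := 1 + 5 * x.size) (RunLe.push _ _ _) ?_).mono (by omega)
  simpa using h1

theorem run_dropOne_D (x : Sx) (a b s : List Bool) :
    RunLe (dropOne .D) (stk a b [] (x.bits ++ s)) (stk a b [] s) (5 * x.size + 2) := by
  have h1 := dropLoop_D x a b [] s _ 1 (RunLe.loopT_none rfl)
  refine (RunLe.seq (n := 1) (n' := 1 + 5 * x.size) (RunLe.push _ _ _) ?_).mono (by omega)
  simpa using h1

theorem run_back_A (b : List Bool) : ∀ (a c d : List Bool),
    RunLe (back .A) (stk a b c d) (stk (b.reverse ++ a) [] c d) (2 * b.length + 1) := by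
  induction b with
  | nil =>
    intro a c d
    exact RunLe.loopB_none rfl
  | cons x b ih =>
    intro a c d
    have e : (x :: b).reverse ++ a = b.reverse ++ (x :: a) := by simp
    rw [e]
    cases x
    · refine (RunLe.loopB_false (n := 1) (stk_B _ _ _ _) ?_ (ih (false :: a) c d)).mono ?_
      · simpa using RunLe.push (stk a b c d) .A false
      · simp only [List.length_cons]; omega
    · refine (RunLe.loopB_true (n := 1) (stk_B _ _ _ _) ?_ (ih (true :: a) c d)).mono ?_
      · simpa using RunLe.push (stk a b c d) .A true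
      · simp only [List.length_cons]; omega

theorem run_back_D (b : List Bool) : ∀ (a c d : List Bool),
    RunLe (back .D) (stk a b c d) (stk a [] c (b.reverse ++ d)) (2 * b.length + 1) := by
  induction b with
  | nil =>
    intro a c d
    exact RunLe.loopB_none rfl
  | cons x b ih =>
    intro a c d
    have e : (x :: b).reverse ++ d = b.reverse ++ (x :: d) := by simp
    rw [e]
    cases x
    · refine (RunLe.loopB_false (n := 1) (stk_B _ _ _ _) ?_ (ih a c (false :: d))).mono ?_
      · simpa using RunLe.push (stk a b c d) .D false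
      · simp only [List.length_cons]; omega
    · refine (RunLe.loopB_true (n := 1) (stk_B _ _ _ _) ?_ (ih a c (true :: d))).mono ?_
      · simpa using RunLe.push (stk a b c d) .D true
      · simp only [List.length_cons]; omega

theorem run_backBoth (b : List Bool) : ∀ (a c d : List Bool),
    RunLe backBoth (stk a b c d) (stk (b.reverse ++ a) [] c (b.reverse ++ d))
      (3 * b.length + 1) := by
  induction b with
  | nil =>
    intro a c d
    exact RunLe.loopB_none rfl
  | cons x b ih =>
    intro a c d
    have e : ∀ d : List Bool, (x :: b).reverse ++ d = b.reverse ++ (x :: d) := by simp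
    rw [e, e]
    cases x
    · refine (RunLe.loopB_false (n := 2) (stk_B _ _ _ _) ?_
        (ih (false :: a) c (false :: d))).mono ?_
      · rw [update_B]
        refine RunLe.seq (n := 1) (n' := 1) (RunLe.push _ _ _) ?_
        simpa using RunLe.push (stk (false :: a) b c d) .D false
      · simp only [List.length_cons]; omega
    · refine (RunLe.loopB_true (n := 2) (stk_B _ _ _ _) ?_
        (ih (true :: a) c (true :: d))).mono ?_
      · rw [update_B]
        refine RunLe.seq (n := 1) (n' := 1) (RunLe.push _ _ _) ?_
        simpa using RunLe.push (stk (true :: a) b c d) .D true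
      · simp only [List.length_cons]; omega

namespace Cmd

/-- for each symbol of `B` put one more cell on the unary numeral on top of `A` -/
def countB : Cmd St :=
  .loopB .B (.seq (.push .A false) (.push .A true)) (.seq (.push .A false) (.push .A true))

end Cmd

theorem run_countB (b : List Bool) : ∀ (m : ℕ) (a c d : List Bool),
    RunLe countB (stk ((Sx.ofNat m).bits ++ a) b c d)
      (stk ((Sx.ofNat (m + b.length)).bits ++ a) [] c d) (3 * b.length + 1) := by
  induction b with
  | nil =>
    intro m a c d
    exact RunLe.loopB_none rfl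
  | cons x b ih =>
    intro m a c d
    have e : m + (x :: b).length = (m + 1) + b.length := by simp only [List.length_cons]; omega
    rw [e]
    have h1 := ih (m + 1) a c d
    have h2 : RunLe (.seq (.push .A false) (.push .A true))
        (stk ((Sx.ofNat m).bits ++ a) b c d) (stk ((Sx.ofNat (m + 1)).bits ++ a) b c d) 2 := by
      refine RunLe.seq (n := 1) (n' := 1) (RunLe.push _ _ _) ?_
      simpa [Sx.ofNat, Sx.bits] using
        RunLe.push (stk (false :: ((Sx.ofNat m).bits ++ a)) b c d) .A true
    cases x
    · refine (RunLe.loopB_false (n := 2) (stk_B _ _ _ _) ?_ h1).mono ?_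
      · rw [update_B]
        exact h2
      · simp only [List.length_cons]; omega
    · refine (RunLe.loopB_true (n := 2) (stk_B _ _ _ _) ?_ h1).mono ?_
      · rw [update_B]
        exact h2
      · simp only [List.length_cons]; omega

namespace Cmd

/-- copy the top S-expression of `A` to `D` -/
def dup : Cmd St := .seq (moveOne .A .B) backBoth

/-- move the top S-expression of `D` to `A` -/
def restore : Cmd St := .seq (moveOne .D .B) (back .A)

/-- move the top S-expression of `A` to `D` -/
def save : Cmd St := .seq (moveOne .A .B) (back .D)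

end Cmd

theorem run_dup (x : Sx) (r s : List Bool) :
    RunLe dup (stk (x.bits ++ r) [] [] s) (stk (x.bits ++ r) [] [] (x.bits ++ s))
      (8 * x.size + 3) := by
  have := (RunLe.seq (run_moveOne_A x r s) (run_backBoth x.bits.reverse r [] s))
  rw [List.reverse_reverse, List.length_reverse, Sx.length_bits] at this
  exact this.mono (by omega)

theorem run_restore (x : Sx) (r s : List Bool) :
    RunLe restore (stk r [] [] (x.bits ++ s)) (stk (x.bits ++ r) [] [] s)
      (7 * x.size + 3) := by
  have := (RunLe.seq (run_moveOne_D x r s) (run_back_A x.bits.reverse r [] s))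
  rw [List.reverse_reverse, List.length_reverse, Sx.length_bits] at this
  exact this.mono (by omega)

theorem run_save (x : Sx) (r s : List Bool) :
    RunLe save (stk (x.bits ++ r) [] [] s) (stk r [] [] (x.bits ++ s))
      (7 * x.size + 3) := by
  have := (RunLe.seq (run_moveOne_A x r s) (run_back_D x.bits.reverse r [] s))
  rw [List.reverse_reverse, List.length_reverse, Sx.length_bits] at this
  exact this.mono (by omega)

/-! ### The class of polynomial-time functions on S-expressions -/

/-- An inductively defined class of functions on S-expressions, relative to a domain `D` of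
admissible arguments.  In the rule for iteration the sizes of all intermediate values must be
bounded by a polynomial. -/
inductive PFn : (Sx → Prop) → (Sx → Sx) → Prop
  | id {D : Sx → Prop} : PFn D (fun x => x)
  | nil {D : Sx → Prop} : PFn D (fun _ => Sx.nil)
  | hd {D : Sx → Prop} : PFn D Sx.hd
  | tl {D : Sx → Prop} : PFn D Sx.tl
  | usize {D : Sx → Prop} : PFn D (fun x => Sx.ofNat x.size)
  | comp {D E : Sx → Prop} {f g : Sx → Sx} : PFn E f → PFn D g → (∀ x, D x → E (g x)) →
      PFn D (fun x => f (g x))
  | cons {D : Sx → Prop} {f g : Sx → Sx} : PFn D f → PFn D g → PFn D (fun x => Sx.cons (f x) (g x))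
  | cond {D : Sx → Prop} {p f g : Sx → Sx} : PFn D p →
      PFn (fun x => D x ∧ p x ≠ Sx.nil) f → PFn (fun x => D x ∧ p x = Sx.nil) g →
      PFn D (fun x => if p x = Sx.nil then g x else f x)
  | iter {D E : Sx → Prop} {f : Sx → Sx} (Q : Polynomial ℕ) : PFn E f →
      (∀ x, D x → ∀ i, i ≤ (Sx.hd x).len →
        E (f^[i] (Sx.tl x)) ∧ (f^[i] (Sx.tl x)).size ≤ Q.eval x.size) →
      PFn D (fun x => f^[(Sx.hd x).len] (Sx.tl x))

/-- evaluation of a polynomial over `ℕ` is monotone -/
theorem eval_mono (P : Polynomial ℕ) {a b : ℕ} (h : a ≤ b) : P.eval a ≤ P.eval b := by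
  induction P using Polynomial.induction_on' with
  | add p q hp hq => simp only [Polynomial.eval_add]; omega
  | monomial n c =>
    simp only [Polynomial.eval_monomial]
    exact Nat.mul_le_mul_left c (Nat.pow_le_pow_left h n)

open Polynomial in
theorem PFn.size_le {D : Sx → Prop} {f : Sx → Sx} (h : PFn D f) :
    ∃ P : Polynomial ℕ, ∀ x, D x → (f x).size ≤ P.eval x.size := by
  induction h with
  | id => exact ⟨X, fun x _ => by simp⟩
  | nil => exact ⟨1, fun x _ => by simp [Sx.size]⟩
  | hd => exact ⟨X, fun x _ => by simpa using x.size_hd_le⟩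
  | tl => exact ⟨X, fun x _ => by simpa using x.size_tl_le⟩
  | usize => exact ⟨C 2 * X + 1, fun x _ => by simp⟩
  | @comp D E f g _ _ hDE ihf ihg =>
    obtain ⟨P, hP⟩ := ihf
    obtain ⟨Q, hQ⟩ := ihg
    exact ⟨P.comp Q, fun x hx => by
      rw [eval_comp]
      exact (hP _ (hDE x hx)).trans (eval_mono P (hQ x hx))⟩
  | @cons D f g _ _ ihf ihg =>
    obtain ⟨P, hP⟩ := ihf
    obtain ⟨Q, hQ⟩ := ihg
    refine ⟨P + Q + 1, fun x hx => ?_⟩
    have h1 := hP x hx
    have h2 := hQ x hx
    simp only [Sx.size, eval_add, eval_one]
    omega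
  | @cond D p f g _ _ _ _ ihf ihg =>
    obtain ⟨P, hP⟩ := ihf
    obtain ⟨Q, hQ⟩ := ihg
    refine ⟨P + Q, fun x hx => ?_⟩
    simp only [eval_add]
    split_ifs with hp
    · have := hQ x ⟨hx, hp⟩
      omega
    · have := hP x ⟨hx, hp⟩
      omega
  | @iter D E f Q _ hQ _ => exact ⟨Q, fun x hx => (hQ x hx _ le_rfl).2⟩

/-- restriction of the domain -/
theorem PFn.mono {D E : Sx → Prop} {f : Sx → Sx} (h : PFn E f) (hDE : ∀ x, D x → E x) :
    PFn D f :=
  PFn.comp h PFn.id hDE

open Polynomial in
/-- Every function in `PFn` is computed by a stack program in polynomial time. -/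
theorem PFn.exists_cmd {D : Sx → Prop} {f : Sx → Sx} (h : PFn D f) :
    ∃ (c : Cmd St) (P : Polynomial ℕ), ∀ (x : Sx) (r s : List Bool), D x →
      RunLe c (stk (x.bits ++ r) [] [] s) (stk ((f x).bits ++ r) [] [] s) (P.eval x.size) := by
  induction h with
  | id => exact ⟨.skip, 0, fun x r s _ => (RunLe.skip _).mono (by simp)⟩
  | nil =>
    refine ⟨.seq (dropOne .A) (.push .A false), C 5 * X + C 3, fun x r s _ => ?_⟩
    refine (RunLe.seq (run_dropOne_A x r [] s) (n' := 1) ?_).mono (by simp)
    simpa [Sx.bits] using RunLe.push (stk r [] [] s) .A false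
  | hd =>
    refine ⟨.pop .A .skip (.push .A false)
      (.seq (moveOne .A .B) (.seq (dropOne .A) (back .A))), C 7 * X + C 10, fun x r s _ => ?_⟩
    cases x with
    | nil =>
      simp only [Sx.bits, List.singleton_append, Sx.hd]
      refine (RunLe.pop_false (n := 1) (stk_A _ _ _ _) ?_).mono
        (by simp only [eval_add, eval_C]; omega)
      rw [update_A]
      simpa using RunLe.push (stk r [] [] s) .A false
    | cons a b =>
      simp only [Sx.bits, List.cons_append, List.append_assoc, Sx.hd]
      have h1 := run_moveOne_A a (b.bits ++ r) s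
      have h2 := run_dropOne_A b r a.bits.reverse s
      have h3 := run_back_A a.bits.reverse r [] s
      rw [List.reverse_reverse, List.length_reverse, Sx.length_bits] at h3
      refine (RunLe.pop_true (n := (5 * a.size + 2) + ((5 * b.size + 2) + (2 * a.size + 1)))
        (stk_A _ _ _ _) ?_).mono ?_
      · rw [update_A]
        exact RunLe.seq h1 (RunLe.seq h2 h3)
      · simp [Sx.size]; omega
  | tl =>
    refine ⟨.pop .A .skip (.push .A false) (dropOne .A), C 5 * X + C 10, fun x r s _ => ?_⟩
    cases x with
    | nil =>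
      simp only [Sx.bits, List.singleton_append, Sx.tl]
      refine (RunLe.pop_false (n := 1) (stk_A _ _ _ _) ?_).mono
        (by simp only [eval_add, eval_C]; omega)
      rw [update_A]
      simpa using RunLe.push (stk r [] [] s) .A false
    | cons a b =>
      simp only [Sx.bits, List.cons_append, List.append_assoc, Sx.tl]
      refine (RunLe.pop_true (n := 5 * a.size + 2) (stk_A _ _ _ _) ?_).mono ?_
      · rw [update_A]
        exact run_dropOne_A a (b.bits ++ r) [] s
      · simp [Sx.size]; omega
  | usize =>
    refine ⟨.seq (moveOne .A .B) (.seq (.push .A false) countB), C 8 * X + C 10,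
      fun x r s _ => ?_⟩
    refine (RunLe.seq (run_moveOne_A x r s) (RunLe.seq (n := 1) (RunLe.push _ _ _) ?_)
      (n' := 1 + (3 * x.size + 1))).mono ?_
    · have := run_countB x.bits.reverse 0 r [] s
      rw [List.length_reverse, Sx.length_bits, Nat.zero_add] at this
      rw [update_A, stk_A]
      exact this
    · simp; omega
  | @comp D E f g _ hg hDE ihf ihg =>
    obtain ⟨cf, P, hf⟩ := ihf
    obtain ⟨cg, Q, hcg⟩ := ihg
    obtain ⟨R, hR⟩ := hg.size_le
    refine ⟨.seq cg cf, Q + P.comp R, fun x r s hx => ?_⟩
    refine (RunLe.seq (hcg x r s hx) (hf (g x) r s (hDE x hx))).mono ?_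
    simp only [eval_add, eval_comp]
    exact Nat.add_le_add_left (eval_mono P (hR x hx)) _
  | @cons D f g _ _ ihf ihg =>
    obtain ⟨cf, P, hf⟩ := ihf
    obtain ⟨cg, Q, hg⟩ := ihg
    refine ⟨.seq dup (.seq cg (.seq restore (.seq cf (.push .A true)))),
      P + Q + C 15 * X + C 10, fun x r s hx => ?_⟩
    refine (RunLe.seq (run_dup x r s) (RunLe.seq (hg x r (x.bits ++ s) hx)
      (RunLe.seq (run_restore x ((g x).bits ++ r) s)
      (RunLe.seq (hf x ((g x).bits ++ r) s hx) (n' := 1) ?_)))).mono ?_
    · simpa [Sx.bits] using RunLe.push (stk ((f x).bits ++ ((g x).bits ++ r)) [] [] s) .A true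
    · simp; omega
  | @cond D p f g hp _ _ ihp ihf ihg =>
    obtain ⟨cp, N, hcp⟩ := ihp
    obtain ⟨cf, P, hf⟩ := ihf
    obtain ⟨cg, Q, hg⟩ := ihg
    obtain ⟨R, hR⟩ := hp.size_le
    refine ⟨.seq dup (.seq cp (.pop .A .skip (.seq restore cg)
      (.seq (dropOne .A) (.seq (dropOne .A) (.seq restore cf))))),
      N + P + Q + C 5 * R + C 15 * X + C 20, fun x r s hD => ?_⟩
    have hpx := hcp x r (x.bits ++ s) hD
    have hRx := hR x hD
    by_cases hx : p x = Sx.nil
    · simp only [hx, if_true]
      rw [hx] at hpx
      refine (RunLe.seq (run_dup x r s) (RunLe.seq hpx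
        (RunLe.pop_false (l := r) (n := (7 * x.size + 3) + Q.eval x.size) rfl ?_))).mono ?_
      · rw [update_A]
        exact RunLe.seq (run_restore x r s) (hg x r s ⟨hD, hx⟩)
      · simp; omega
    · simp only [hx, if_false]
      rcases hpc : p x with _ | ⟨a, b⟩
      · exact absurd hpc hx
      rw [hpc] at hpx hRx
      simp only [Sx.size] at hRx
      have h1 := run_dropOne_A a (b.bits ++ r) [] (x.bits ++ s)
      have h2 := run_dropOne_A b r [] (x.bits ++ s)
      refine (RunLe.seq (run_dup x r s) (RunLe.seq hpx
        (RunLe.pop_true (l := a.bits ++ (b.bits ++ r))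
          (n := (5 * a.size + 2) + ((5 * b.size + 2) + ((7 * x.size + 3) + P.eval x.size)))
          ?_ ?_))).mono ?_
      · simp [Sx.bits]
      · rw [update_A]
        exact RunLe.seq h1 (RunLe.seq h2 (RunLe.seq (run_restore x r s) (hf x r s ⟨hD, hx⟩)))
      · simp; omega
  | @iter D E f Q _ hQ ihf =>
    obtain ⟨cf, P, hf⟩ := ihf
    -- the loop
    have loop : ∀ (n y : Sx) (r s : List Bool) (B : ℕ),
        (∀ i, i ≤ n.len → E (f^[i] y) ∧ (f^[i] y).size ≤ B) →
        RunLe (.loopT .D (.seq (dropOne .D) cf)) (stk (y.bits ++ r) [] [] (n.bits ++ s))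
          (stk ((f^[n.len] y).bits ++ r) [] [] s) (5 * n.size + n.len * (P.eval B + 3) + 1) := by
      intro n
      induction n with
      | nil =>
        intro y r s B _
        simp only [Sx.bits, List.singleton_append, Sx.len, Function.iterate_zero, id_eq]
        have h := RunLe.loopT_false (c := .seq (dropOne .D) cf)
          (stk_D (y.bits ++ r) [] [] (false :: s))
        rw [update_D] at h
        exact h.mono (by omega)
      | cons a b _ ihb =>
        intro y r s B hB
        have hy : E y ∧ y.size ≤ B := hB 0 (Nat.zero_le _)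
        have ih := ihb (f y) r s B (fun i hi => by
          have := hB (i + 1) (by simp only [Sx.len]; omega)
          rwa [Function.iterate_succ_apply] at this)
        simp only [Sx.bits, List.cons_append, List.append_assoc, Sx.len,
          Function.iterate_succ_apply]
        refine (RunLe.loopT_true (n := (5 * a.size + 2) + P.eval y.size) (stk_D _ _ _ _) ?_
          ih).mono ?_
        · rw [update_D]
          exact RunLe.seq (run_dropOne_D a _ [] _) (hf y r _ hy.1)
        · have := eval_mono P hy.2
          simp only [Sx.size]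
          nlinarith
    refine ⟨.pop .A .skip (.push .A false)
      (.seq save (.loopT .D (.seq (dropOne .D) cf))),
      C 12 * X + X * (P.comp Q + C 3) + C 10, fun x r s hD => ?_⟩
    cases x with
    | nil =>
      simp only [Sx.bits, List.singleton_append, Sx.tl, Sx.hd, Sx.len, Function.iterate_zero,
        id_eq]
      refine (RunLe.pop_false (n := 1) (stk_A _ _ _ _) ?_).mono
        (by simp only [eval_add, eval_C]; omega)
      rw [update_A]
      simpa using RunLe.push (stk r [] [] s) .A false
    | cons n y =>
      have h1 := loop n y r s (Q.eval (Sx.cons n y).size)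
        (fun i hi => hQ (Sx.cons n y) hD i hi)
      simp only [Sx.bits, List.cons_append, List.append_assoc, Sx.tl, Sx.hd]
      refine (RunLe.pop_true (stk_A _ _ _ _) (n := (7 * n.size + 3) +
        (5 * n.size + n.len * (P.eval (Q.eval (Sx.cons n y).size) + 3) + 1)) ?_).mono ?_
      · rw [update_A]
        exact RunLe.seq (run_save n (y.bits ++ r) s) h1
      · have hn := n.len_le_size
        simp only [eval_add, eval_mul, eval_C, eval_X, eval_comp]
        set E := eval (eval (Sx.cons n y).size Q) P
        have : n.len * (E + 3) ≤ (Sx.cons n y).size * (E + 3) :=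
          Nat.mul_le_mul_right _ (by simp only [Sx.size]; omega)
        simp only [Sx.size] at *
        omega

open Polynomial in
/-- Every function in `PFn D` is computed on `D` by a Mathlib machine in polynomial time. -/
theorem PFn.exists_tm {D : Sx → Prop} {f : Sx → Sx} (h : PFn D f) :
    Nonempty (Turing.TM2ComputableInPolyTime (fun x : {x // D x} => x.1.bits) Sx.bits
      (fun x => f x.1)) := by
  obtain ⟨c, P, hP⟩ := h.exists_cmd
  refine ⟨{
    tm := (Flow.compile c).toTM .A .A
    inputAlphabet := Equiv.refl _
    outputAlphabet := Equiv.refl _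
    time := P + 1
    outputsFun := fun x => Classical.choice ?_ }⟩
  obtain ⟨t, ht, hrun⟩ := hP x.1 [] [] x.2
  simp only [List.append_nil] at hrun
  rw [← update_eq_stk, ← update_eq_stk] at hrun
  have h := Cmd.outputs c .A .A hrun ((P + 1).eval (x.1.bits.length)) (by simp; omega)
  have e : ∀ l : List Bool, List.map (Equiv.refl Bool).invFun l = l := fun l => List.map_id l
  exact (congrArg₂ (fun a b => Nonempty (Turing.TM2OutputsInTime
    ((Flow.compile c).toTM .A .A) a (some b) ((P + 1).eval x.1.bits.length))) (e x.1.bits)
    (e (f x.1).bits)).mpr h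

end Pool.Agent.PolyTime
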