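import Pool.Agent.Lib.PolyTime.Sexp

/-!
# Polynomial-time functions between coded types

`SCode α` is a class of types with an injective coding by S-expressions.  `PTime f` says that
`f : α → β` is computed on codes by a function of the class `PFn`; in particular
(`PTime.exists_tm`) by a Mathlib machine `Turing.FinTM2` in polynomial time.
The file proves closure properties.
-/

namespace Pool.Agent.PolyTime

open Function

/-- types whose elements are coded by S-expressions -/
class SCode (α : Type) where
  /-- the code of an element -/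
  enc : α → Sx
  /-- different elements have different codes -/
  inj : Function.Injective enc

export SCode (enc)

/-- size of the code -/
def sz {α : Type} [SCode α] (a : α) : ℕ := (enc a).size

theorem sz_pos {α : Type} [SCode α] (a : α) : 0 < sz a := Sx.size_pos _

/-- codes of elements of `α` -/
def Dom (α : Type) [SCode α] (x : Sx) : Prop := ∃ a : α, enc a = x

theorem dom_enc {α : Type} [SCode α] (a : α) : Dom α (enc a) := ⟨a, rfl⟩

/-- polynomial-time functions between coded types -/
def PTime {α β : Type} [SCode α] [SCode β] (f : α → β) : Prop :=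
  ∃ g : Sx → Sx, PFn (Dom α) g ∧ ∀ a, g (enc a) = enc (f a)

/-! ### Codings of the basic types -/

instance : SCode Sx := ⟨id, injective_id⟩

instance : SCode Unit := ⟨fun _ => .nil, fun _ _ _ => rfl⟩

instance : SCode Bool := ⟨fun b => bif b then .cons .nil .nil else .nil, fun a b => by
  cases a <;> cases b <;> simp⟩

/-- natural numbers are coded in unary -/
instance : SCode ℕ := ⟨Sx.ofNat, fun m n h => by
  have := congrArg Sx.len h
  simpa using this⟩

instance {α β : Type} [SCode α] [SCode β] : SCode (α × β) :=
  ⟨fun p => .cons (enc p.1) (enc p.2), fun p q h => by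
    simp only [Sx.cons.injEq] at h
    exact Prod.ext (SCode.inj h.1) (SCode.inj h.2)⟩

/-- code of a list -/
def encList {α : Type} [SCode α] : List α → Sx
  | [] => .nil
  | a :: l => .cons (enc a) (encList l)

theorem encList_inj {α : Type} [SCode α] : Function.Injective (encList (α := α)) := by
  intro l
  induction l with
  | nil => intro l' h; cases l' <;> simp_all [encList]
  | cons a l ih =>
    intro l' h
    cases l' with
    | nil => simp [encList] at h
    | cons b l' =>
      simp only [encList, Sx.cons.injEq] at h
      rw [SCode.inj h.1, ih h.2]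

instance {α : Type} [SCode α] : SCode (List α) := ⟨encList, encList_inj⟩

instance {α : Type} [SCode α] : SCode (Option α) :=
  ⟨fun o => o.elim .nil (fun a => .cons .nil (enc a)), fun a b h => by
    cases a <;> cases b <;> simp_all
    exact SCode.inj h⟩

instance {α β : Type} [SCode α] [SCode β] : SCode (α ⊕ β) :=
  ⟨Sum.elim (fun a => .cons .nil (enc a)) (fun b => .cons (.cons .nil .nil) (enc b)),
    fun a b h => by
      cases a <;> cases b <;> simp_all
      · exact SCode.inj h
      · exact SCode.inj h⟩

section simp

variable {α β : Type} [SCode α] [SCode β]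

@[simp] theorem enc_sx (x : Sx) : enc x = x := rfl
@[simp] theorem enc_unit (x : Unit) : enc x = .nil := rfl
@[simp] theorem enc_false : enc false = .nil := rfl
@[simp] theorem enc_true : enc true = .cons .nil .nil := rfl
@[simp] theorem enc_zero : enc (0 : ℕ) = .nil := rfl
@[simp] theorem enc_succ (n : ℕ) : enc (n + 1) = .cons .nil (enc n) := rfl
@[simp] theorem enc_pair (a : α) (b : β) : enc (a, b) = .cons (enc a) (enc b) := rfl
@[simp] theorem enc_nil : enc ([] : List α) = .nil := rfl
@[simp] theorem enc_cons (a : α) (l : List α) : enc (a :: l) = .cons (enc a) (enc l) := rfl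
@[simp] theorem enc_none : enc (none : Option α) = .nil := rfl
@[simp] theorem enc_some (a : α) : enc (some a) = .cons .nil (enc a) := rfl
@[simp] theorem enc_inl (a : α) : enc (Sum.inl a : α ⊕ β) = .cons .nil (enc a) := rfl
@[simp] theorem enc_inr (b : β) : enc (Sum.inr b : α ⊕ β) = .cons (.cons .nil .nil) (enc b) :=
  rfl

@[simp] theorem sz_unit (x : Unit) : sz x = 1 := rfl
@[simp] theorem sz_false : sz false = 1 := rfl
@[simp] theorem sz_true : sz true = 3 := rfl
theorem sz_bool_le (b : Bool) : sz b ≤ 3 := by cases b <;> simp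
@[simp] theorem sz_nat (n : ℕ) : sz n = 2 * n + 1 := Sx.size_ofNat n
@[simp] theorem sz_pair (a : α) (b : β) : sz (a, b) = sz a + sz b + 1 := rfl
@[simp] theorem sz_nil : sz ([] : List α) = 1 := rfl
@[simp] theorem sz_cons (a : α) (l : List α) : sz (a :: l) = sz a + sz l + 1 := rfl
@[simp] theorem sz_none : sz (none : Option α) = 1 := rfl
@[simp] theorem sz_some (a : α) : sz (some a) = sz a + 2 := by
  simp only [sz, enc_some, Sx.size]; omega
@[simp] theorem sz_inl (a : α) : sz (Sum.inl a : α ⊕ β) = sz a + 2 := by
  simp only [sz, enc_inl, Sx.size]; omega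
@[simp] theorem sz_inr (b : β) : sz (Sum.inr b : α ⊕ β) = sz b + 4 := by
  simp only [sz, enc_inr, Sx.size]; omega
@[simp] theorem sz_append (l l' : List α) : sz (l ++ l') + 1 = sz l + sz l' := by
  induction l with
  | nil => simp; omega
  | cons a l ih => simp only [List.cons_append, sz_cons]; omega
@[simp] theorem sz_reverse (l : List α) : sz l.reverse = sz l := by
  induction l with
  | nil => rfl
  | cons a l ih =>
    have := sz_append l.reverse [a]
    simp only [List.reverse_cons, sz_cons, sz_nil] at *
    omega
theorem sz_le_of_mem {l : List α} {a : α} (h : a ∈ l) : sz a + 1 ≤ sz l := by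
  induction l with
  | nil => simp at h
  | cons b l ih =>
    rcases List.mem_cons.1 h with rfl | h
    · simp only [sz_cons]; omega
    · have := ih h
      simp only [sz_cons]; omega
theorem length_le_sz (l : List α) : 2 * l.length + 1 ≤ sz l := by
  induction l with
  | nil => simp
  | cons b l ih =>
    have := sz_pos b
    simp only [sz_cons, List.length_cons]; omega
theorem sz_drop_le (l : List α) (n : ℕ) : sz (l.drop n) ≤ sz l := by
  induction l generalizing n with
  | nil => simp
  | cons b l ih =>
    cases n with
    | zero => simp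
    | succ n =>
      have := ih n
      simp only [List.drop_succ_cons, sz_cons]
      omega

@[simp] theorem len_enc_list (l : List α) : (enc l).len = l.length := by
  induction l with
  | nil => rfl
  | cons a l ih => simp [Sx.len, ih]

@[simp] theorem len_enc_nat (n : ℕ) : (enc n).len = n := Sx.len_ofNat n

end simp

namespace PTime

variable {α β γ δ σ : Type} [SCode α] [SCode β] [SCode γ] [SCode δ] [SCode σ]

/-! ### Basic closure properties -/

theorem of_eq {f g : α → β} (hf : PTime f) (h : ∀ a, f a = g a) : PTime g := by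
  obtain rfl : f = g := funext h
  exact hf

protected theorem id : PTime (fun a : α => a) := ⟨_, .id, fun _ => rfl⟩

theorem comp {f : β → γ} {g : α → β} (hf : PTime f) (hg : PTime g) :
    PTime (fun a => f (g a)) := by
  obtain ⟨F, hF, hF'⟩ := hf
  obtain ⟨G, hG, hG'⟩ := hg
  refine ⟨fun x => F (G x), .comp hF hG ?_, fun a => (congrArg F (hG' a)).trans (hF' _)⟩
  rintro _ ⟨a, rfl⟩
  exact ⟨g a, (hG' a).symm⟩

theorem _root_.Pool.Agent.PolyTime.PFn.const {D : Sx → Prop} (y : Sx) : PFn D (fun _ => y) := by
  induction y with
  | nil => exact .nil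
  | cons a b iha ihb => exact .cons iha ihb

protected theorem const (b : β) : PTime (fun _ : α => b) := ⟨_, PFn.const (enc b), fun _ => rfl⟩

theorem pair {f : α → β} {g : α → γ} (hf : PTime f) (hg : PTime g) :
    PTime (fun a => (f a, g a)) := by
  obtain ⟨F, hF, hF'⟩ := hf
  obtain ⟨G, hG, hG'⟩ := hg
  exact ⟨_, .cons hF hG, fun a => by simp [hF', hG']⟩

protected theorem fst : PTime (fun p : α × β => p.1) := ⟨_, .hd, fun _ => rfl⟩

protected theorem snd : PTime (fun p : α × β => p.2) := ⟨_, .tl, fun _ => rfl⟩

/-- functions of two arguments -/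
theorem comp₂ {f : β → γ → δ} {g : α → β} {h : α → γ}
    (hf : PTime (fun p : β × γ => f p.1 p.2)) (hg : PTime g) (hh : PTime h) :
    PTime (fun a => f (g a) (h a)) :=
  hf.comp (hg.pair hh)

/-- the code of the value -/
theorem encode : PTime (fun a : α => enc a) := ⟨_, .id, fun _ => rfl⟩

/-- change of type with the same code -/
theorem of_enc {f : α → β} (h : ∀ a, enc (f a) = enc a) : PTime f :=
  ⟨_, .id, fun a => (h a).symm⟩

/-- size of the code, in unary -/
theorem size : PTime (fun a : α => sz a) := ⟨_, .usize, fun _ => rfl⟩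

/-- the growth of a polynomial-time function is polynomially bounded -/
theorem sz_le {f : α → β} (hf : PTime f) : ∃ P : Polynomial ℕ, ∀ a, sz (f a) ≤ P.eval (sz a) := by
  obtain ⟨F, hF, hF'⟩ := hf
  obtain ⟨P, hP⟩ := hF.size_le
  refine ⟨P, fun a => ?_⟩
  have := hP _ (dom_enc a)
  rwa [hF'] at this

/-- case distinction -/
theorem cond {c : α → Bool} {f g : α → β} (hc : PTime c) (hf : PTime f) (hg : PTime g) :
    PTime (fun a => bif c a then f a else g a) := by
  obtain ⟨C, hC, hC'⟩ := hc
  obtain ⟨F, hF, hF'⟩ := hf
  obtain ⟨G, hG, hG'⟩ := hg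
  refine ⟨_, .cond hC (hF.mono fun x hx => hx.1) (hG.mono fun x hx => hx.1), fun a => ?_⟩
  simp only [hC', hF', hG']
  cases c a <;> simp

/-- case distinction -/
theorem ite {c : α → Prop} [DecidablePred c] {f g : α → β} (hc : PTime (fun a => decide (c a)))
    (hf : PTime f) (hg : PTime g) : PTime (fun a => if c a then f a else g a) :=
  (cond hc hf hg).of_eq fun a => by by_cases h : c a <;> simp [h]

/-- relativized case distinction on an S-expression being `nil` -/
theorem sx_cond {c : α → Sx} {f g : α → β} (hc : PTime c) (hf : PTime f) (hg : PTime g) :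
    PTime (fun a => if c a = .nil then g a else f a) := by
  obtain ⟨C, hC, hC'⟩ := hc
  obtain ⟨F, hF, hF'⟩ := hf
  obtain ⟨G, hG, hG'⟩ := hg
  refine ⟨_, .cond hC (hF.mono fun x hx => hx.1) (hG.mono fun x hx => hx.1), fun a => ?_⟩
  simp only [hC', hF', hG', enc_sx]
  split_ifs <;> rfl

/-! ### Booleans -/

theorem and {f g : α → Bool} (hf : PTime f) (hg : PTime g) : PTime (fun a => f a && g a) :=
  (cond hf hg (PTime.const false)).of_eq fun a => by cases f a <;> simp

theorem or {f g : α → Bool} (hf : PTime f) (hg : PTime g) : PTime (fun a => f a || g a) :=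
  (cond hf (PTime.const true) hg).of_eq fun a => by cases f a <;> simp

theorem not {f : α → Bool} (hf : PTime f) : PTime (fun a => !f a) :=
  (cond hf (PTime.const false) (PTime.const true)).of_eq fun a => by cases f a <;> simp

/-! ### Lists: constructors and destructors -/

theorem cons {f : α → β} {g : α → List β} (hf : PTime f) (hg : PTime g) :
    PTime (fun a => f a :: g a) := by
  obtain ⟨F, hF, hF'⟩ := hf
  obtain ⟨G, hG, hG'⟩ := hg
  exact ⟨_, .cons hF hG, fun a => by simp [hF', hG']⟩

theorem tail {f : α → List β} (hf : PTime f) : PTime (fun a => (f a).tail) := by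
  obtain ⟨F, hF, hF'⟩ := hf
  refine ⟨_, .comp (E := fun _ => True) .tl hF (fun _ _ => trivial), fun a => ?_⟩
  rw [hF']
  rcases h : f a with _ | ⟨b, l⟩ <;> simp [Sx.tl, h]

theorem isEmpty {f : α → List β} (hf : PTime f) : PTime (fun a => (f a).isEmpty) := by
  obtain ⟨F, hF, hF'⟩ := hf
  refine ⟨_, .cond hF (PFn.const (enc false)) (PFn.const (enc true)), fun a => ?_⟩
  simp only [hF']
  cases f a <;> simp

theorem head? {f : α → List β} (hf : PTime f) : PTime (fun a => (f a).head?) := by
  obtain ⟨F, hF, hF'⟩ := hf
  refine ⟨_, .cond hF (.cons .nil (.comp (E := fun _ => True) .hd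
    (hF.mono fun x hx => hx.1) (fun _ _ => trivial))) .nil, fun a => ?_⟩
  simp only [hF']
  cases f a <;> simp [Sx.hd]

theorem headD {f : α → List β} {d : α → β} (hf : PTime f) (hd : PTime d) :
    PTime (fun a => (f a).headD (d a)) := by
  obtain ⟨F, hF, hF'⟩ := hf
  obtain ⟨G, hG, hG'⟩ := hd
  refine ⟨_, .cond hF (.comp (E := fun _ => True) .hd
    (hF.mono fun x hx => hx.1) (fun _ _ => trivial)) (hG.mono fun x hx => hx.1), fun a => ?_⟩
  simp only [hF', hG']
  cases f a <;> simp [Sx.hd]

/-- case distinction on a list -/
theorem list_casesOn {f : α → List β} {g : α → γ} {h : α → β → List β → γ} (hf : PTime f)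
    (hg : PTime g) (hh : PTime (fun p : α × β × List β => h p.1 p.2.1 p.2.2)) :
    PTime (fun a => (List.casesOn (f a) (g a) (fun b l => h a b l) : γ)) := by
  obtain ⟨F, hF, hF'⟩ := hf
  obtain ⟨G, hG, hG'⟩ := hg
  obtain ⟨H, hH, hH'⟩ := hh
  refine ⟨_, .cond hF (.comp (D := fun x => Dom α x ∧ F x ≠ .nil) hH
    (.cons .id (.cons (.comp (E := fun _ => True) .hd (hF.mono fun x hx => hx.1)
      (fun _ _ => trivial)) (.comp (E := fun _ => True) .tl (hF.mono fun x hx => hx.1)
      (fun _ _ => trivial)))) ?_) (hG.mono fun x hx => hx.1), fun a => ?_⟩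
  · rintro _ ⟨⟨a, rfl⟩, hx⟩
    rw [hF'] at hx ⊢
    rcases hl : f a with _ | ⟨b, l⟩
    · simp [hl] at hx
    · exact ⟨(a, b, l), by simp [Sx.hd, Sx.tl]⟩
  · simp only [hF', hG']
    rcases hl : f a with _ | ⟨b, l⟩
    · simp
    · have := hH' (a, b, l)
      simpa [Sx.hd, Sx.tl] using this

/-- case distinction on an option -/
theorem option_casesOn {f : α → Option β} {g : α → γ} {h : α → β → γ} (hf : PTime f)
    (hg : PTime g) (hh : PTime (fun p : α × β => h p.1 p.2)) :
    PTime (fun a => (Option.casesOn (f a) (g a) (fun b => h a b) : γ)) := by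
  obtain ⟨F, hF, hF'⟩ := hf
  obtain ⟨G, hG, hG'⟩ := hg
  obtain ⟨H, hH, hH'⟩ := hh
  refine ⟨_, .cond hF (.comp (D := fun x => Dom α x ∧ F x ≠ .nil) hH
    (.cons .id (.comp (E := fun _ => True) .tl (hF.mono fun x hx => hx.1)
      (fun _ _ => trivial))) ?_) (hG.mono fun x hx => hx.1), fun a => ?_⟩
  · rintro _ ⟨⟨a, rfl⟩, hx⟩
    rw [hF'] at hx ⊢
    rcases hl : f a with _ | b
    · simp [hl] at hx
    · exact ⟨(a, b), by simp [Sx.tl]⟩
  · simp only [hF', hG']
    rcases hl : f a with _ | b
    · simp
    · have := hH' (a, b)
      simpa [Sx.tl] using this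

theorem some {f : α → β} (hf : PTime f) : PTime (fun a => Option.some (f a)) := by
  obtain ⟨F, hF, hF'⟩ := hf
  exact ⟨_, .cons .nil hF, fun a => by simp [hF']⟩

theorem inl {f : α → β} (hf : PTime f) : PTime (fun a => (Sum.inl (f a) : β ⊕ γ)) := by
  obtain ⟨F, hF, hF'⟩ := hf
  exact ⟨_, .cons .nil hF, fun a => by simp [hF']⟩

theorem inr {f : α → γ} (hf : PTime f) : PTime (fun a => (Sum.inr (f a) : β ⊕ γ)) := by
  obtain ⟨F, hF, hF'⟩ := hf
  exact ⟨_, .cons (PFn.const (.cons .nil .nil)) hF, fun a => by simp [hF']⟩

/-- case distinction on a sum -/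
theorem sum_elim {f : α → β ⊕ γ} {g : α → β → δ} {h : α → γ → δ} (hf : PTime f)
    (hg : PTime (fun p : α × β => g p.1 p.2)) (hh : PTime (fun p : α × γ => h p.1 p.2)) :
    PTime (fun a => (f a).elim (g a) (h a)) := by
  obtain ⟨F, hF, hF'⟩ := hf
  obtain ⟨G, hG, hG'⟩ := hg
  obtain ⟨H, hH, hH'⟩ := hh
  have hF1 : PFn (Dom α) (fun x => (F x).hd) := .comp (E := fun _ => True) .hd hF
    (fun _ _ => trivial)
  have hF2 : PFn (Dom α) (fun x => (F x).tl) := .comp (E := fun _ => True) .tl hF
    (fun _ _ => trivial)
  refine ⟨_, .cond hF1 (.comp (D := fun x => Dom α x ∧ (F x).hd ≠ .nil) hH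
    (.cons .id (hF2.mono fun x hx => hx.1)) ?_) (.comp (D := fun x => Dom α x ∧ (F x).hd = .nil) hG
    (.cons .id (hF2.mono fun x hx => hx.1)) ?_), fun a => ?_⟩
  · rintro _ ⟨⟨a, rfl⟩, hx⟩
    rw [hF'] at hx ⊢
    rcases hl : f a with b | c
    · simp [hl, Sx.hd] at hx
    · exact ⟨(a, c), by simp [Sx.tl]⟩
  · rintro _ ⟨⟨a, rfl⟩, hx⟩
    rw [hF'] at hx ⊢
    rcases hl : f a with b | c
    · exact ⟨(a, b), by simp [Sx.tl]⟩
    · simp [hl, Sx.hd] at hx
  · simp only [hF']
    rcases hl : f a with b | c
    · have := hG' (a, b)
      simpa [Sx.tl, Sx.hd] using this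
    · have := hH' (a, c)
      simpa [Sx.tl, Sx.hd] using this

/-! ### Folds -/

open Polynomial in
/-- Left fold over a list, the sizes of all intermediate values being bounded by a
polynomial. -/
theorem foldl_of_bound {l : α → List β} {s : α → σ} {f : α → σ → β → σ} (hl : PTime l)
    (hs : PTime s) (hf : PTime (fun p : α × σ × β => f p.1 p.2.1 p.2.2)) (Q : Polynomial ℕ)
    (hQ : ∀ a l₁ l₂, l a = l₁ ++ l₂ → sz (l₁.foldl (f a) (s a)) ≤ Q.eval (sz a)) :
    PTime (fun a => (l a).foldl (f a) (s a)) := by
  obtain ⟨L, hL, hL'⟩ := hl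
  obtain ⟨S, hS, hS'⟩ := hs
  obtain ⟨T, hT, hT'⟩ := hf
  -- domain of the step: codes of triples
  let E : Sx → Prop := fun x => ∃ (a : α) (l : List β) (s : σ), x = .cons (enc a) (.cons (enc l) (enc s))
  let G : Sx → Sx := fun x => if x.tl.hd = .nil then x else
    .cons x.hd (.cons x.tl.hd.tl (T (.cons x.hd (.cons x.tl.tl x.tl.hd.hd))))
  have h1 : ∀ {D : Sx → Prop}, PFn D (fun x => x.tl.hd) := .comp (E := fun _ => True) .hd .tl
    (fun _ _ => trivial)
  have h2 : ∀ {D : Sx → Prop}, PFn D (fun x => x.tl.hd.tl) :=
    .comp (E := fun _ => True) .tl h1 (fun _ _ => trivial)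
  have h3 : ∀ {D : Sx → Prop}, PFn D (fun x => x.tl.hd.hd) :=
    .comp (E := fun _ => True) .hd h1 (fun _ _ => trivial)
  have h4 : ∀ {D : Sx → Prop}, PFn D (fun x => x.tl.tl) :=
    .comp (E := fun _ => True) .tl .tl (fun _ _ => trivial)
  have hG : PFn E G := by
    refine .cond h1 (.cons .hd (.cons h2 (.comp hT (.cons .hd (.cons h4 h3)) ?_))) .id
    rintro x ⟨⟨a, l, s, rfl⟩, hx⟩
    rcases l with _ | ⟨b, l⟩
    · simp [Sx.tl, Sx.hd] at hx
    · exact ⟨(a, s, b), by simp [Sx.tl, Sx.hd]⟩
  have hGs : ∀ (a : α) (l : List β) (s : σ), ∀ i, i ≤ l.length →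
      G^[i] (.cons (enc a) (.cons (enc l) (enc s))) =
        .cons (enc a) (.cons (enc (l.drop i)) (enc ((l.take i).foldl (f a) s))) := by
    intro a l s i
    induction i generalizing l s with
    | zero => intro _; simp
    | succ i ih =>
      intro hi
      rcases l with _ | ⟨b, l⟩
      · simp at hi
      · rw [Function.iterate_succ_apply]
        have hstep : G (.cons (enc a) (.cons (enc (b :: l)) (enc s))) =
            .cons (enc a) (.cons (enc l) (enc (f a s b))) := by
          have := hT' (a, s, b)
          simp only [enc_pair] at this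
          simp [G, Sx.tl, Sx.hd, this]
        rw [hstep, ih l (f a s b) (by simpa using hi)]
        simp
  -- the initial state
  let I : Sx → Sx := fun x => .cons (L x) (.cons x (.cons (L x) (S x)))
  have hI : PFn (Dom α) I := .cons hL (.cons .id (.cons hL hS))
  let D' : Sx → Prop := fun y => ∃ a : α, y =
    .cons (enc (l a)) (.cons (enc a) (.cons (enc (l a)) (enc (s a))))
  have hit : PFn D' (fun y => G^[y.hd.len] y.tl) := by
    refine .iter (Q + C 2 * X + C 2) hG ?_
    rintro _ ⟨a, rfl⟩ i hi
    simp only [Sx.hd, len_enc_list] at hi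
    simp only [Sx.tl]
    rw [hGs a (l a) (s a) i hi]
    refine ⟨⟨_, _, _, rfl⟩, ?_⟩
    have h1 := hQ a ((l a).take i) ((l a).drop i) (List.take_append_drop i (l a)).symm
    have h2 := sz_drop_le (l a) i
    have h3 : sz a ≤ (Sx.cons (enc (l a)) (.cons (enc a) (.cons (enc (l a)) (enc (s a))))).size := by
      simp only [Sx.size, sz]; omega
    have h4 : sz (l a) ≤ (Sx.cons (enc (l a)) (.cons (enc a) (.cons (enc (l a)) (enc (s a))))).size := by
      simp only [Sx.size, sz]; omega
    have h5 := eval_mono Q h3
    simp only [eval_add, eval_mul, eval_C, eval_X]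
    simp only [sz] at *
    simp only [Sx.size] at *
    omega
  refine ⟨fun x => (G^[(I x).hd.len] (I x).tl).tl.tl,
    .comp (E := fun _ => True) .tl (.comp (E := fun _ => True) .tl (.comp hit hI ?_)
      (fun _ _ => trivial)) (fun _ _ => trivial), fun a => ?_⟩
  · rintro _ ⟨a, rfl⟩
    exact ⟨a, by simp [I, hL', hS']⟩
  · simp only [I, hL', hS', Sx.hd, Sx.tl, len_enc_list]
    rw [hGs a (l a) (s a) _ le_rfl]
    simp

open Polynomial in
/-- Left fold over a list, each step increasing the size of the accumulator additively by at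
most a polynomial in the size of the parameter. -/
theorem foldl {l : α → List β} {s : α → σ} {f : α → σ → β → σ} (hl : PTime l)
    (hs : PTime s) (hf : PTime (fun p : α × σ × β => f p.1 p.2.1 p.2.2)) (B : Polynomial ℕ)
    (hB : ∀ a s b, b ∈ l a → sz (f a s b) ≤ sz s + B.eval (sz a)) :
    PTime (fun a => (l a).foldl (f a) (s a)) := by
  obtain ⟨P, hP⟩ := hs.sz_le
  obtain ⟨R, hR⟩ := hl.sz_le
  refine foldl_of_bound hl hs hf (P + R * B) ?_
  intro a l₁ l₂ hla
  have key : ∀ (l₁ : List β) (s : σ), (∀ b ∈ l₁, b ∈ l a) →
      sz (l₁.foldl (f a) s) ≤ sz s + l₁.length * B.eval (sz a) := by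
    intro l₁
    induction l₁ with
    | nil => intro s _; simp
    | cons b l₁ ih =>
      intro s hb
      have h1 := ih (f a s b) (fun c hc => hb c (List.mem_cons_of_mem _ hc))
      have h2 := hB a s b (hb b List.mem_cons_self)
      simp only [List.foldl_cons, List.length_cons, Nat.succ_mul]
      omega
  have h1 := key l₁ (s a) (fun b hb => by rw [hla]; exact List.mem_append_left _ hb)
  have h2 : l₁.length ≤ R.eval (sz a) := by
    have h3 := length_le_sz (l a)
    have h4 := hR a
    have h5 : l₁.length ≤ (l a).length := by rw [hla]; simp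
    omega
  have h3 := hP a
  have h4 := Nat.mul_le_mul_right (B.eval (sz a)) h2
  simp only [eval_add, eval_mul]
  omega

open Polynomial in
theorem reverse {l : α → List β} (hl : PTime l) : PTime (fun a => (l a).reverse) := by
  have h : PTime (fun l : List β => l.foldl (fun s b => b :: s) []) := by
    refine foldl (f := fun _ s b => b :: s) PTime.id (PTime.const []) ?_ (X + 1) ?_
    · exact cons (PTime.snd.comp PTime.snd) (PTime.fst.comp PTime.snd)
    · intro a s b hb
      have := sz_le_of_mem hb
      simp only [sz_cons, eval_add, eval_X, eval_one]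
      omega
  refine (h.comp hl).of_eq fun a => ?_
  have : ∀ (l s : List β), l.foldl (fun s b => b :: s) s = l.reverse ++ s := by
    intro l
    induction l with
    | nil => simp
    | cons b l ih => intro s; simp [ih]
  simp [this (l a) []]

open Polynomial in
theorem map {l : α → List β} {f : α → β → γ} (hl : PTime l)
    (hf : PTime (fun p : α × β => f p.1 p.2)) : PTime (fun a => (l a).map (f a)) := by
  obtain ⟨P, hP⟩ := hf.sz_le
  obtain ⟨R, hR⟩ := hl.sz_le
  have h : PTime (fun a => (l a).foldl (fun s b => f a b :: s) []) := by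
    refine foldl (f := fun a s b => f a b :: s) hl (PTime.const [])
      ?_ (P.comp (X + R + 1) + 1) ?_
    · exact cons (hf.comp (PTime.fst.pair (PTime.snd.comp PTime.snd)))
        (PTime.fst.comp PTime.snd)
    · intro a s b hb
      have h1 := sz_le_of_mem hb
      have h2 := hP (a, b)
      have h3 := hR a
      have h4 := eval_mono P (show sz (a, b) ≤ sz a + R.eval (sz a) + 1 by
        simp only [sz_pair]; omega)
      simp only at h2
      simp only [sz_cons, eval_add, eval_comp, eval_X, eval_one]
      omega
  refine h.reverse.of_eq fun a => ?_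
  have : ∀ (l : List β) (s : List γ), (l.foldl (fun s b => f a b :: s) s).reverse =
      s.reverse ++ l.map (f a) := by
    intro l
    induction l with
    | nil => simp
    | cons b l ih => intro s; simp [ih]
  exact this (l a) []

/-- right fold, additive growth -/
theorem foldr {l : α → List β} {s : α → σ} {f : α → β → σ → σ} (hl : PTime l)
    (hs : PTime s) (hf : PTime (fun p : α × β × σ => f p.1 p.2.1 p.2.2)) (B : Polynomial ℕ)
    (hB : ∀ a s b, b ∈ l a → sz (f a b s) ≤ sz s + B.eval (sz a)) :
    PTime (fun a => (l a).foldr (f a) (s a)) := by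
  have h := foldl (f := fun a s b => f a b s) hl.reverse hs
    (hf.comp (PTime.fst.pair ((PTime.snd.comp PTime.snd).pair (PTime.fst.comp PTime.snd)))) B
    (fun a s b hb => hB a s b (by simpa using hb))
  exact h.of_eq fun a => by simp

open Polynomial in
theorem append {f g : α → List β} (hf : PTime f) (hg : PTime g) :
    PTime (fun a => f a ++ g a) := by
  have h : PTime (fun p : List β × List β => p.1.foldr (fun b s => b :: s) p.2) := by
    refine foldr (f := fun _ b s => b :: s) PTime.fst PTime.snd ?_ (X + 1) ?_
    · exact cons (PTime.fst.comp PTime.snd) (PTime.snd.comp PTime.snd)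
    · intro a s b hb
      have := sz_le_of_mem hb
      simp only [sz_cons, eval_add, eval_X, eval_one]
      have : sz a.1 ≤ sz a := by
        rcases a with ⟨a, b⟩
        simp only [sz_pair]; omega
      omega
  exact (h.comp (hf.pair hg)).of_eq fun a => by simp

open Polynomial in
theorem flatten {l : α → List (List β)} (hl : PTime l) : PTime (fun a => (l a).flatten) := by
  have h : PTime (fun l : List (List β) => l.foldr (fun b s => b ++ s) []) := by
    refine foldr (f := fun _ b s => b ++ s) PTime.id (PTime.const []) ?_ X ?_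
    · exact append (PTime.fst.comp PTime.snd) (PTime.snd.comp PTime.snd)
    · intro a s b hb
      have h1 := sz_le_of_mem hb
      have h2 := sz_append b s
      simp only [eval_X]
      omega
  refine (h.comp hl).of_eq fun a => ?_
  induction l a with
  | nil => rfl
  | cons b l ih => simp [ih]

theorem flatMap {l : α → List β} {f : α → β → List γ} (hl : PTime l)
    (hf : PTime (fun p : α × β => f p.1 p.2)) : PTime (fun a => (l a).flatMap (f a)) :=
  (flatten (map hl hf)).of_eq fun a => by rw [List.flatMap_def]

theorem filter {l : α → List β} {p : α → β → Bool} (hl : PTime l)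
    (hp : PTime (fun q : α × β => p q.1 q.2)) : PTime (fun a => (l a).filter (p a)) := by
  have h : PTime (fun a => (l a).flatMap (fun b => bif p a b then [b] else [])) :=
    flatMap hl (cond hp (cons PTime.snd (PTime.const [])) (PTime.const []))
  refine h.of_eq fun a => ?_
  induction l a with
  | nil => rfl
  | cons b l ih =>
    rw [List.flatMap_cons, ih]
    by_cases hb : p a b = true
    · simp [hb]
    · simp only [Bool.not_eq_true] at hb
      simp [hb]

theorem filterMap {l : α → List β} {f : α → β → Option γ} (hl : PTime l)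
    (hf : PTime (fun q : α × β => f q.1 q.2)) : PTime (fun a => (l a).filterMap (f a)) := by
  have h : PTime (fun a => (l a).flatMap (fun b => (Option.casesOn (f a b) [] (fun c => [c]) : List γ))) :=
    flatMap hl (option_casesOn hf (PTime.const []) (cons PTime.snd (PTime.const [])))
  refine h.of_eq fun a => ?_
  induction l a with
  | nil => rfl
  | cons b l ih =>
    rw [List.flatMap_cons, ih, List.filterMap_cons]
    cases f a b <;> simp

theorem any {l : α → List β} {p : α → β → Bool} (hl : PTime l)
    (hp : PTime (fun q : α × β => p q.1 q.2)) : PTime (fun a => (l a).any (p a)) :=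
  (not (isEmpty (filter hl hp))).of_eq fun a => by
    induction l a with
    | nil => rfl
    | cons b l ih =>
      by_cases hb : p a b = true
      · simp [hb]
      · simp only [Bool.not_eq_true] at hb
        simpa [hb] using ih

theorem all {l : α → List β} {p : α → β → Bool} (hl : PTime l)
    (hp : PTime (fun q : α × β => p q.1 q.2)) : PTime (fun a => (l a).all (p a)) :=
  (not (any (p := fun a b => !p a b) hl (not hp))).of_eq fun a => by
    induction l a with
    | nil => rfl
    | cons b l ih =>
      by_cases hb : p a b = true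
      · simpa [hb] using ih
      · simp only [Bool.not_eq_true] at hb
        simp [hb]

theorem length {l : α → List β} (hl : PTime l) : PTime (fun a => (l a).length) := by
  have h : PTime (fun a => (l a).map (fun _ => ())) := map hl (PTime.const ())
  have h2 : PTime (fun l : List Unit => l.length) := by
    refine of_enc fun l => ?_
    induction l with
    | nil => rfl
    | cons b l ih => simp [ih]
  exact (h2.comp h).of_eq fun a => by simp

/-! ### Natural numbers in unary -/

theorem nat_toList : PTime (fun n : ℕ => List.replicate n ()) := by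
  refine of_enc fun n => ?_
  induction n with
  | zero => rfl
  | succ n ih => simp [List.replicate_succ, ih]

theorem succ {f : α → ℕ} (hf : PTime f) : PTime (fun a => f a + 1) := by
  obtain ⟨F, hF, hF'⟩ := hf
  exact ⟨_, .cons .nil hF, fun a => by simp [hF']⟩

theorem pred {f : α → ℕ} (hf : PTime f) : PTime (fun a => f a - 1) := by
  obtain ⟨F, hF, hF'⟩ := hf
  refine ⟨_, .comp (E := fun _ => True) .tl hF (fun _ _ => trivial), fun a => ?_⟩
  rw [hF']
  rcases h : f a with _ | n <;> simp [Sx.tl, h]

theorem replicate {n : α → ℕ} {f : α → β} (hn : PTime n) (hf : PTime f) :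
    PTime (fun a => List.replicate (n a) (f a)) :=
  (map (f := fun a _ => f a) (nat_toList.comp hn) (hf.comp PTime.fst)).of_eq fun a => by simp

open Polynomial in
/-- iteration, additive growth -/
theorem iterate {n : α → ℕ} {s : α → σ} {f : α → σ → σ} (hn : PTime n) (hs : PTime s)
    (hf : PTime (fun p : α × σ => f p.1 p.2)) (B : Polynomial ℕ)
    (hB : ∀ a s, sz (f a s) ≤ sz s + B.eval (sz a)) : PTime (fun a => (f a)^[n a] (s a)) := by
  have h := foldl (f := fun a s (_ : Unit) => f a s) (nat_toList.comp hn) hs
    (hf.comp (PTime.fst.pair (PTime.fst.comp PTime.snd))) B (fun a s _ _ => hB a s)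
  refine h.of_eq fun a => ?_
  generalize s a = s
  induction n a generalizing s with
  | zero => simp
  | succ n ih => simp [List.replicate_succ, ih]

open Polynomial in
/-- iteration, the sizes of all intermediate values being bounded by a polynomial -/
theorem iterate_of_bound {n : α → ℕ} {s : α → σ} {f : α → σ → σ} (hn : PTime n) (hs : PTime s)
    (hf : PTime (fun p : α × σ => f p.1 p.2)) (Q : Polynomial ℕ)
    (hQ : ∀ a i, i ≤ n a → sz ((f a)^[i] (s a)) ≤ Q.eval (sz a)) :
    PTime (fun a => (f a)^[n a] (s a)) := by
  have key : ∀ (a : α) (l : List Unit) (s : σ),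
      l.foldl (fun s (_ : Unit) => f a s) s = (f a)^[l.length] s := by
    intro a l
    induction l with
    | nil => simp
    | cons b l ih => intro s; simp [ih]
  have h := foldl_of_bound (f := fun a s (_ : Unit) => f a s) (nat_toList.comp hn) hs
    (hf.comp (PTime.fst.pair (PTime.fst.comp PTime.snd))) Q (fun a l₁ l₂ hl => by
      rw [key]
      refine hQ a _ ?_
      have := congrArg List.length hl
      simp only [List.length_replicate, List.length_append] at this
      omega)
  refine h.of_eq fun a => ?_
  rw [key]
  simp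

theorem add {f g : α → ℕ} (hf : PTime f) (hg : PTime g) : PTime (fun a => f a + g a) :=
  (length (append (nat_toList.comp hf) (nat_toList.comp hg))).of_eq fun a => by simp

theorem mul {f g : α → ℕ} (hf : PTime f) (hg : PTime g) : PTime (fun a => f a * g a) :=
  (length (flatMap (f := fun a _ => List.replicate (g a) ()) (nat_toList.comp hf)
    (replicate (hg.comp PTime.fst) (PTime.const ())))).of_eq fun a => by simp

open Polynomial in
theorem sub {f g : α → ℕ} (hf : PTime f) (hg : PTime g) : PTime (fun a => f a - g a) := by
  refine (iterate (f := fun _ s => s - 1) hg hf (pred PTime.snd) 0 ?_).of_eq fun a => ?_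
  · intro a s
    simp only [sz_nat, eval_zero]
    omega
  · generalize f a = m
    induction g a generalizing m with
    | zero => simp
    | succ n ih =>
      rw [Function.iterate_succ_apply, ih]
      omega

theorem natPow_const {f : α → ℕ} (hf : PTime f) (k : ℕ) : PTime (fun a => f a ^ k) := by
  induction k with
  | zero => exact (PTime.const 1).of_eq fun a => by simp
  | succ k ih => exact (mul ih hf).of_eq fun a => by rw [pow_succ]

open Polynomial in
/-- polynomials are polynomial-time in unary -/
theorem polyEval (P : Polynomial ℕ) {f : α → ℕ} (hf : PTime f) : PTime (fun a => P.eval (f a)) := by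
  induction P using Polynomial.induction_on' with
  | add p q hp hq => exact (add hp hq).of_eq fun a => by simp
  | monomial n c =>
    exact (mul (PTime.const c) (natPow_const hf n)).of_eq fun a => by simp [eval_monomial]

theorem isZero {f : α → ℕ} (hf : PTime f) : PTime (fun a => decide (f a = 0)) := by
  obtain ⟨F, hF, hF'⟩ := hf
  refine ⟨_, .cond hF (PFn.const (enc false)) (PFn.const (enc true)), fun a => ?_⟩
  simp only [hF']
  cases f a <;> simp

theorem nat_le {f g : α → ℕ} (hf : PTime f) (hg : PTime g) :
    PTime (fun a => decide (f a ≤ g a)) :=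
  (isZero (sub hf hg)).of_eq fun a => by
    congr 1
    exact propext Nat.sub_eq_zero_iff_le

theorem nat_lt {f g : α → ℕ} (hf : PTime f) (hg : PTime g) :
    PTime (fun a => decide (f a < g a)) :=
  (nat_le (succ hf) hg).of_eq fun _ => rfl

theorem nat_eq {f g : α → ℕ} (hf : PTime f) (hg : PTime g) :
    PTime (fun a => decide (f a = g a)) :=
  (and (nat_le hf hg) (nat_le hg hf)).of_eq fun a => by
    rw [← Bool.decide_and]
    congr 1
    exact propext ⟨fun h => le_antisymm h.1 h.2, fun h => ⟨h.le, h.ge⟩⟩

open Polynomial in
/-- the list `[0, 1, ..., n - 1]` -/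
theorem range {f : α → ℕ} (hf : PTime f) : PTime (fun a => List.range (f a)) := by
  have h : PTime (fun a => (fun p : ℕ × List ℕ => (p.1 + 1, p.1 :: p.2))^[f a] (0, [])) := by
    obtain ⟨P, hP⟩ := hf.sz_le
    have key : ∀ i, (fun p : ℕ × List ℕ => (p.1 + 1, p.1 :: p.2))^[i] (0, []) =
        (i, (List.range i).reverse) := by
      intro i
      induction i with
      | zero => rfl
      | succ i ih =>
        rw [Function.iterate_succ_apply', ih]
        simp [List.range_succ]
    refine iterate_of_bound (f := fun _ (p : ℕ × List ℕ) => (p.1 + 1, p.1 :: p.2)) hf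
      (PTime.const (0, [])) ?_ (C 2 * P * P + C 10 * P + 10) ?_
    · exact pair (succ (PTime.fst.comp PTime.snd)) (cons (PTime.fst.comp PTime.snd)
        (PTime.snd.comp PTime.snd))
    · intro a i hi
      rw [key]
      have h1 : ∀ i, sz (List.range i).reverse ≤ i * (2 * i + 2) + 1 := by
        intro i
        induction i with
        | zero => simp
        | succ i ih =>
          rw [sz_reverse] at ih ⊢
          have := sz_append (List.range i) [i]
          rw [List.range_succ]
          simp only [sz_cons, sz_nat, sz_nil] at this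
          nlinarith
      have h2 := hP a
      simp only [sz_nat] at h2
      have h3 := h1 i
      simp only [sz_pair, sz_nat, eval_add, eval_mul, eval_C, eval_ofNat]
      have h4 : i ≤ P.eval (sz a) := by omega
      have h5 : i * (2 * i + 2) ≤ P.eval (sz a) * (2 * P.eval (sz a) + 2) :=
        Nat.mul_le_mul h4 (by omega)
      nlinarith
  refine (reverse (PTime.snd.comp h)).of_eq fun a => ?_
  have key : ∀ i, (fun p : ℕ × List ℕ => (p.1 + 1, p.1 :: p.2))^[i] (0, []) =
      (i, (List.range i).reverse) := by
    intro i
    induction i with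
    | zero => rfl
    | succ i ih =>
      rw [Function.iterate_succ_apply', ih]
      simp [List.range_succ]
  rw [key]
  simp

open Polynomial in
/-- iterated tails -/
theorem drop {n : α → ℕ} {l : α → List β} (hn : PTime n) (hl : PTime l) :
    PTime (fun a => (l a).drop (n a)) := by
  refine (iterate (f := fun _ s => s.tail) hn hl (tail PTime.snd) 0 ?_).of_eq fun a => ?_
  · intro a s
    have := sz_drop_le s 1
    simpa using this
  · generalize l a = m
    induction n a generalizing m with
    | zero => simp
    | succ n ih =>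
      rw [Function.iterate_succ_apply, ih]
      simp

theorem getElem? {n : α → ℕ} {l : α → List β} (hn : PTime n) (hl : PTime l) :
    PTime (fun a => (l a)[n a]?) :=
  (head? (drop hn hl)).of_eq fun a => by simp

theorem getD {n : α → ℕ} {l : α → List β} {d : α → β} (hn : PTime n) (hl : PTime l)
    (hd : PTime d) : PTime (fun a => (l a).getD (n a) (d a)) :=
  (headD (drop hn hl) hd).of_eq fun a => by
    rw [List.headD_eq_head?_getD, List.head?_drop]
    simp [List.getD_eq_getElem?_getD]

theorem take {n : α → ℕ} {l : α → List β} (hn : PTime n) (hl : PTime l) :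
    PTime (fun a => (l a).take (n a)) :=
  (reverse (drop (sub (length hl) hn) (reverse hl))).of_eq fun a => by
    rw [List.drop_reverse, List.reverse_reverse]
    by_cases h : n a ≤ (l a).length
    · congr 1; omega
    · rw [List.take_of_length_le (by omega), List.take_of_length_le (by omega)]

/-! ### Machines -/

/-- Polynomial-time functions in the sense of this file are computed by Mathlib machines in
polynomial time. -/
theorem exists_tm {f : α → β} (h : PTime f) :
    Nonempty (Turing.TM2ComputableInPolyTime (fun a : α => (enc a).bits)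
      (fun b : β => (enc b).bits) f) := by
  obtain ⟨F, hF, hF'⟩ := h
  obtain ⟨M⟩ := hF.exists_tm
  refine ⟨{ toTM2ComputableAux := M.toTM2ComputableAux, time := M.time, outputsFun := ?_ }⟩
  intro a
  have := M.outputsFun ⟨enc a, dom_enc a⟩
  simp only [hF'] at this
  exact this

end PTime

end Pool.Agent.PolyTime
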