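import Mathlib

/-!
# Structured programs over finitely many stacks, and their compilation to `Turing.FinTM2`

`Cmd K` is a small structured language over stacks of Booleans indexed by `K`; `Run c S S' t`
is its big-step semantics with an exact step count `t`.  `Cmd.exists_finTM2` compiles a program
to a bundled machine of Mathlib (`Turing.FinTM2`) that performs the same computation in at
most `t + 2` steps.
-/

namespace Pool.Agent.PolyTime

open Function

/-- structured commands over stacks of Booleans -/
inductive Cmd (K : Type) : Type
  | skip : Cmd K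
  | push (k : K) (b : Bool) : Cmd K
  | seq (c₁ c₂ : Cmd K) : Cmd K
  /-- pop stack `k`: continue with `cn` if it was empty, with `cf`/`ct` if the symbol was
  `false`/`true` -/
  | pop (k : K) (cn cf ct : Cmd K) : Cmd K
  /-- pop stack `k` again and again until it is empty; run `cf`/`ct` for each popped
  `false`/`true` -/
  | loopB (k : K) (cf ct : Cmd K) : Cmd K
  /-- pop stack `k` again and again as long as the popped symbol is `true`, running `c` each
  time; stop when `false` is popped or the stack is empty -/
  | loopT (k : K) (c : Cmd K) : Cmd K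

section

variable {K : Type} [DecidableEq K]

/-- big-step semantics with step count -/
inductive Run : Cmd K → (K → List Bool) → (K → List Bool) → ℕ → Prop
  | skip (S) : Run .skip S S 0
  | push (S k b) : Run (.push k b) S (update S k (b :: S k)) 1
  | seq {c₁ c₂ S S' S'' t t'} : Run c₁ S S' t → Run c₂ S' S'' t' → Run (.seq c₁ c₂) S S'' (t + t')
  | pop_none {k cn cf ct S S' t} : S k = [] → Run cn S S' t → Run (.pop k cn cf ct) S S' (t + 1)
  | pop_false {k cn cf ct S S' t l} : S k = false :: l → Run cf (update S k l) S' t →
      Run (.pop k cn cf ct) S S' (t + 1)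
  | pop_true {k cn cf ct S S' t l} : S k = true :: l → Run ct (update S k l) S' t →
      Run (.pop k cn cf ct) S S' (t + 1)
  | loopB_none {k cf ct S} : S k = [] → Run (.loopB k cf ct) S S 1
  | loopB_false {k cf ct S S' S'' t t' l} : S k = false :: l → Run cf (update S k l) S' t →
      Run (.loopB k cf ct) S' S'' t' → Run (.loopB k cf ct) S S'' (t + t' + 1)
  | loopB_true {k cf ct S S' S'' t t' l} : S k = true :: l → Run ct (update S k l) S' t →
      Run (.loopB k cf ct) S' S'' t' → Run (.loopB k cf ct) S S'' (t + t' + 1)
  | loopT_none {k c S} : S k = [] → Run (.loopT k c) S S 1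
  | loopT_false {k c S l} : S k = false :: l → Run (.loopT k c) S (update S k l) 1
  | loopT_true {k c S S' S'' t t' l} : S k = true :: l → Run c (update S k l) S' t →
      Run (.loopT k c) S' S'' t' → Run (.loopT k c) S S'' (t + t' + 1)

end

/-! ### Flow charts -/

/-- one node of a flow chart; targets are optional, `none` meaning exit -/
inductive Node (K Λ : Type) : Type
  | push (k : K) (b : Bool) (nx : Option Λ) : Node K Λ
  | pop (k : K) (n f t : Option Λ) : Node K Λ

/-- redirect the targets of a node -/
def Node.map {K Λ Λ' : Type} (g : Option Λ → Option Λ') : Node K Λ → Node K Λ'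
  | .push k b nx => .push k b (g nx)
  | .pop k n f t => .pop k (g n) (g f) (g t)

/-- flow charts with a finite set of labels -/
structure Flow (K : Type) where
  Λ : Type
  fin : Fintype Λ
  entry : Option Λ
  node : Λ → Node K Λ

namespace Flow

variable {K : Type} [DecidableEq K]

/-- effect of a node -/
def nstep {Λ : Type} (S : K → List Bool) : Node K Λ → Option Λ × (K → List Bool)
  | .push k b nx => (nx, update S k (b :: S k))
  | .pop k n f t =>
    match S k with
    | [] => (n, S)
    | false :: l => (f, update S k l)
    | true :: l => (t, update S k l)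

/-- `Steps m l S l' S' t`: `t` steps lead from label `l`, stacks `S` to `l'`, `S'` -/
inductive Steps {Λ : Type} (m : Λ → Node K Λ) :
    Option Λ → (K → List Bool) → Option Λ → (K → List Bool) → ℕ → Prop
  | refl (l S) : Steps m l S l S 0
  | head {l S l' S' t} : Steps m (nstep S (m l)).1 (nstep S (m l)).2 l' S' t →
      Steps m (some l) S l' S' (t + 1)

theorem Steps.trans {Λ : Type} {m : Λ → Node K Λ} {l S l' S' l'' S'' t t'}
    (h : Steps m l S l' S' t) (h' : Steps m l' S' l'' S'' t') :
    Steps m l S l'' S'' (t + t') := by
  induction h with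
  | refl => simpa using h'
  | head _ ih =>
    have := Steps.head (m := m) (ih h')
    rwa [Nat.add_right_comm] at this

theorem nstep_map {Λ Λ' : Type} (g : Option Λ → Option Λ') (S : K → List Bool) (n : Node K Λ) :
    nstep S (n.map g) = (g (nstep S n).1, (nstep S n).2) := by
  cases n with
  | push k b nx => rfl
  | pop k n f t =>
    simp only [Node.map, nstep]
    rcases S k with _ | ⟨_ | _, l⟩ <;> rfl

/-- Embedding of a flow chart: if `m'` restricted along `i` is `m` with exits redirected to `e`,
then runs of `m` to the exit become runs of `m'` to `e`. -/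
theorem Steps.embed {Λ Λ' : Type} {m : Λ → Node K Λ} {m' : Λ' → Node K Λ'} (i : Λ → Λ')
    (e : Option Λ')
    (hm : ∀ l, m' (i l) = (m l).map (fun o => o.elim e (fun x => some (i x))))
    {l S S' t} (h : Steps m l S none S' t) :
    Steps m' (l.elim e (fun x => some (i x))) S e S' t := by
  generalize ho : (none : Option Λ) = o at h
  induction h with
  | refl l S => subst ho; exact Steps.refl _ _
  | @head l S l' S' t _ ih =>
    have ih := ih ho
    simp only [Option.elim_some]
    apply Steps.head
    rw [hm, nstep_map]
    exact ih

/-- sequential composition of flow charts -/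
def seq (F G : Flow K) : Flow K where
  Λ := F.Λ ⊕ G.Λ
  fin := @instFintypeSum _ _ F.fin G.fin
  entry := F.entry.elim (G.entry.map Sum.inr) (fun x => some (Sum.inl x))
  node := fun l => match l with
    | .inl l => (F.node l).map (fun o => o.elim (G.entry.map Sum.inr) (fun x => some (Sum.inl x)))
    | .inr l => (G.node l).map (fun o => o.elim none (fun x => some (Sum.inr x)))

/-- case distinction on a popped symbol -/
def popCase (k : K) (N F T : Flow K) : Flow K where
  Λ := Unit ⊕ (N.Λ ⊕ (F.Λ ⊕ T.Λ))
  fin := @instFintypeSum _ _ inferInstance (@instFintypeSum _ _ N.fin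
    (@instFintypeSum _ _ F.fin T.fin))
  entry := some (.inl ())
  node := fun l => match l with
    | .inl _ => .pop k (N.entry.elim none (fun x => some (.inr (.inl x))))
        (F.entry.elim none (fun x => some (.inr (.inr (.inl x)))))
        (T.entry.elim none (fun x => some (.inr (.inr (.inr x)))))
    | .inr (.inl l) => (N.node l).map (fun o => o.elim none (fun x => some (.inr (.inl x))))
    | .inr (.inr (.inl l)) =>
        (F.node l).map (fun o => o.elim none (fun x => some (.inr (.inr (.inl x)))))
    | .inr (.inr (.inr l)) =>
        (T.node l).map (fun o => o.elim none (fun x => some (.inr (.inr (.inr x)))))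

/-- loop until the stack is empty -/
def loopB (k : K) (F T : Flow K) : Flow K where
  Λ := Unit ⊕ (F.Λ ⊕ T.Λ)
  fin := @instFintypeSum _ _ inferInstance (@instFintypeSum _ _ F.fin T.fin)
  entry := some (.inl ())
  node := fun l => match l with
    | .inl _ => .pop k none
        (F.entry.elim (some (.inl ())) (fun x => some (.inr (.inl x))))
        (T.entry.elim (some (.inl ())) (fun x => some (.inr (.inr x))))
    | .inr (.inl l) =>
        (F.node l).map (fun o => o.elim (some (.inl ())) (fun x => some (.inr (.inl x))))
    | .inr (.inr l) =>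
        (T.node l).map (fun o => o.elim (some (.inl ())) (fun x => some (.inr (.inr x))))

/-- loop as long as `true` is popped -/
def loopT (k : K) (T : Flow K) : Flow K where
  Λ := Unit ⊕ T.Λ
  fin := @instFintypeSum _ _ inferInstance T.fin
  entry := some (.inl ())
  node := fun l => match l with
    | .inl _ => .pop k none none
        (T.entry.elim (some (.inl ())) (fun x => some (.inr x)))
    | .inr l =>
        (T.node l).map (fun o => o.elim (some (.inl ())) (fun x => some (.inr x)))

/-- compilation -/
def compile {K : Type} : Cmd K → Flow K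
  | .skip => ⟨Empty, inferInstance, none, Empty.elim⟩
  | .push k b => ⟨Unit, inferInstance, some (), fun _ => .push k b none⟩
  | .seq c₁ c₂ => (compile c₁).seq (compile c₂)
  | .pop k cn cf ct => popCase k (compile cn) (compile cf) (compile ct)
  | .loopB k cf ct => loopB k (compile cf) (compile ct)
  | .loopT k c => loopT k (compile c)

theorem Steps.headPush {Λ : Type} {m : Λ → Node K Λ} {l k b nx} {S l' S' t}
    (hm : m l = .push k b nx) (h : Steps m nx (update S k (b :: S k)) l' S' t) :
    Steps m (some l) S l' S' (t + 1) := by
  apply Steps.head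
  rw [hm]
  exact h

theorem Steps.headNil {Λ : Type} {m : Λ → Node K Λ} {l k n f u} {S l' S' t}
    (hm : m l = .pop k n f u) (hk : S k = []) (h : Steps m n S l' S' t) :
    Steps m (some l) S l' S' (t + 1) := by
  apply Steps.head
  rw [hm]
  simp only [nstep, hk]
  exact h

theorem Steps.headFalse {Λ : Type} {m : Λ → Node K Λ} {l k n f u r} {S l' S' t}
    (hm : m l = .pop k n f u) (hk : S k = false :: r) (h : Steps m f (update S k r) l' S' t) :
    Steps m (some l) S l' S' (t + 1) := by
  apply Steps.head
  rw [hm]
  simp only [nstep, hk]
  exact h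

theorem Steps.headTrue {Λ : Type} {m : Λ → Node K Λ} {l k n f u r} {S l' S' t}
    (hm : m l = .pop k n f u) (hk : S k = true :: r) (h : Steps m u (update S k r) l' S' t) :
    Steps m (some l) S l' S' (t + 1) := by
  apply Steps.head
  rw [hm]
  simp only [nstep, hk]
  exact h

theorem compile_steps {c : Cmd K} {S S' : K → List Bool} {t : ℕ} (h : Run c S S' t) :
    Steps (compile c).node (compile c).entry S none S' t := by
  induction h with
  | skip S => exact Steps.refl _ _
  | push S k b => exact Steps.headPush (l := ()) rfl (Steps.refl _ _)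
  | @seq c₁ c₂ S S' S'' t t' _ _ ih₁ ih₂ =>
    refine Steps.trans (Steps.embed (m' := (compile (.seq c₁ c₂)).node) Sum.inl
      ((compile c₂).entry.map Sum.inr) (fun l => rfl) ih₁) ?_
    have h2 := Steps.embed (m' := (compile (.seq c₁ c₂)).node) Sum.inr none (fun l => rfl) ih₂
    rcases h3 : (compile c₂).entry with _ | x <;> rw [h3] at h2 <;> exact h2
  | @pop_none k cn cf ct S S' t hk _ ih =>
    exact Steps.headNil (l := Sum.inl ()) rfl hk
      (Steps.embed (m' := (compile (.pop k cn cf ct)).node) (fun x => .inr (.inl x))
      none (fun l => rfl) ih)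
  | @pop_false k cn cf ct S S' t l hk _ ih =>
    exact Steps.headFalse (l := Sum.inl ()) rfl hk
      (Steps.embed (m' := (compile (.pop k cn cf ct)).node) (fun x => .inr (.inr (.inl x)))
      none (fun l => rfl) ih)
  | @pop_true k cn cf ct S S' t l hk _ ih =>
    exact Steps.headTrue (l := Sum.inl ()) rfl hk
      (Steps.embed (m' := (compile (.pop k cn cf ct)).node) (fun x => .inr (.inr (.inr x)))
      none (fun l => rfl) ih)
  | @loopB_none k cf ct S hk =>
    exact Steps.headNil (l := Sum.inl ()) rfl hk (Steps.refl _ _)
  | @loopB_false k cf ct S S' S'' t t' l hk _ _ ih₁ ih₂ =>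
    exact Steps.headFalse (l := Sum.inl ()) rfl hk
      (Steps.trans (Steps.embed (m' := (compile (.loopB k cf ct)).node)
      (fun x => .inr (.inl x)) (some (.inl ())) (fun l => rfl) ih₁) ih₂)
  | @loopB_true k cf ct S S' S'' t t' l hk _ _ ih₁ ih₂ =>
    exact Steps.headTrue (l := Sum.inl ()) rfl hk
      (Steps.trans (Steps.embed (m' := (compile (.loopB k cf ct)).node)
      (fun x => .inr (.inr x)) (some (.inl ())) (fun l => rfl) ih₁) ih₂)
  | @loopT_none k c S hk =>
    exact Steps.headNil (l := Sum.inl ()) rfl hk (Steps.refl _ _)
  | @loopT_false k c S l hk =>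
    exact Steps.headFalse (l := Sum.inl ()) rfl hk (Steps.refl _ _)
  | @loopT_true k c S S' S'' t t' l hk _ _ ih₁ ih₂ =>
    exact Steps.headTrue (l := Sum.inl ()) rfl hk
      (Steps.trans (Steps.embed (m' := (compile (.loopT k c)).node)
      (fun x => .inr x) (some (.inl ())) (fun l => rfl) ih₁) ih₂)

/-! ### Flow charts as `Turing.FinTM2` -/

/-- jump to an optional label; `none` means halt -/
def gotoOpt {Λ : Type} : Option Λ → Turing.TM2.Stmt (fun _ : K => Bool) (Option Λ) (Option Bool)
  | none => .halt
  | some l => .goto (fun _ => some l)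

/-- the statement of a node -/
def nodeStmt {Λ : Type} : Node K Λ → Turing.TM2.Stmt (fun _ : K => Bool) (Option Λ) (Option Bool)
  | .push k b nx => .push k (fun _ => b) (gotoOpt nx)
  | .pop k n f t => .pop k (fun _ s => s)
      (.branch (fun v => v.isNone) (.load (fun _ => none) (gotoOpt n))
        (.branch (fun v => v.getD false) (.load (fun _ => none) (gotoOpt t))
          (.load (fun _ => none) (gotoOpt f))))

/-- the machine -/
def toTM [Fintype K] (F : Flow K) (k₀ k₁ : K) : Turing.FinTM2 where
  K := K
  k₀ := k₀
  k₁ := k₁
  Γ := fun _ => Bool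
  Λ := Option F.Λ
  main := none
  ΛFin := @instFintypeOption _ F.fin
  σ := Option Bool
  initialState := none
  m := fun l => match l with
    | none => gotoOpt F.entry
    | some l => nodeStmt (F.node l)

/-- configuration of the machine belonging to an optional label -/
def cfg {Λ : Type} (l : Option Λ) (S : K → List Bool) :
    Turing.TM2.Cfg (fun _ : K => Bool) (Option Λ) (Option Bool) :=
  ⟨l.map some, none, S⟩

theorem stepAux_gotoOpt {Λ : Type} (l : Option Λ) (S : K → List Bool) :
    Turing.TM2.stepAux (gotoOpt (K := K) l) none S = cfg l S := by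
  cases l <;> rfl

theorem stepAux_nodeStmt {Λ : Type} (n : Node K Λ) (S : K → List Bool) :
    Turing.TM2.stepAux (nodeStmt n) none S = cfg (nstep S n).1 (nstep S n).2 := by
  cases n with
  | push k b nx =>
    simp only [nodeStmt, Turing.TM2.stepAux, nstep]
    exact stepAux_gotoOpt _ _
  | pop k n f t =>
    simp only [nodeStmt, Turing.TM2.stepAux, nstep]
    rcases hS : S k with _ | ⟨_ | _, l⟩
    · simp only [List.head?_nil, Option.isNone_none, cond_true, List.tail_nil]
      have : update S k [] = S := by rw [← hS]; exact update_eq_self _ _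
      rw [this]
      exact stepAux_gotoOpt _ _
    · simpa using stepAux_gotoOpt _ _
    · simpa using stepAux_gotoOpt _ _

theorem evals_of_steps [Fintype K] (F : Flow K) (k₀ k₁ : K) {l S S' t}
    (h : Steps F.node l S none S' t) :
    (flip bind (F.toTM k₀ k₁).step)^[t] (some (cfg l S)) = some (cfg none S') := by
  generalize ho : (none : Option F.Λ) = o at h
  induction h with
  | refl l S => subst ho; rfl
  | @head l S l' S' t _ ih =>
    rw [Function.iterate_succ_apply]
    have : (flip bind (F.toTM k₀ k₁).step) (some (cfg (some l) S)) =
        some (cfg (nstep S (F.node l)).1 (nstep S (F.node l)).2) := by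
      change (F.toTM k₀ k₁).step (cfg (some l) S) = _
      exact congrArg some (stepAux_nodeStmt _ _)
    rw [this]
    exact ih ho

end Flow

/-- Compilation of a structured program to a Mathlib machine: if the program started with the
input `x` on stack `k₀` and all other stacks empty ends with `y` on stack `k₁` and all other
stacks empty, then so does the machine, in at most one more step. -/
theorem Cmd.outputs {K : Type} [DecidableEq K] [Fintype K] (c : Cmd K) (k₀ k₁ : K)
    {x y : List Bool} {t : ℕ}
    (h : Run c (update (fun _ => []) k₀ x) (update (fun _ => []) k₁ y) t) (m : ℕ)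
    (hm : t + 1 ≤ m) :
    Nonempty (Turing.TM2OutputsInTime ((Flow.compile c).toTM k₀ k₁) x (some y) m) := by
  refine ⟨⟨⟨t + 1, ?_⟩, hm⟩⟩
  rw [Function.iterate_succ_apply]
  have h0 : Turing.initList ((Flow.compile c).toTM k₀ k₁) x =
      (⟨some none, none, update (fun _ => []) k₀ x⟩ :
        Turing.TM2.Cfg (fun _ : K => Bool) (Option (Flow.compile c).Λ) (Option Bool)) := by
    unfold Turing.initList
    congr 1
    funext k
    by_cases hk : k = k₀
    · refine Eq.trans (dif_pos hk) ?_
      cases hk
      exact (update_self k₀ x (fun _ => [])).symm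
    · exact Eq.trans (dif_neg hk) (update_of_ne hk x (fun _ => [])).symm
  have h1 : Turing.haltList ((Flow.compile c).toTM k₀ k₁) y =
      Flow.cfg none (update (fun _ => []) k₁ y) := by
    unfold Turing.haltList
    congr 1
    funext k
    by_cases hk : k = k₁
    · refine Eq.trans (dif_pos hk) ?_
      cases hk
      exact (update_self k₁ y (fun _ => [])).symm
    · exact Eq.trans (dif_neg hk) (update_of_ne hk y (fun _ => [])).symm
  have h2 : Option.map (Turing.haltList ((Flow.compile c).toTM k₀ k₁)) (some y) =
      some (Flow.cfg none (update (fun _ => []) k₁ y)) := congrArg some h1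
  refine Eq.trans ?_ h2.symm
  rw [← Flow.evals_of_steps (Flow.compile c) k₀ k₁ (Flow.compile_steps h), h0]
  congr 1
  exact congrArg some (Flow.stepAux_gotoOpt _ _)

end Pool.Agent.PolyTime
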